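import Pool.Agent.H18W.Stm

/-!
Piece BAD of project WF: the number of the bad vectors.
-/

set_option autoImplicit false

noncomputable section

namespace Pool.Agent.H18W

open Polynomial Finset

namespace BAD

/-- the half length of the interval of the coefficient `j` -/
def RR (g : ℕ) (s : ℝ) (j : Fin g) : ℝ := 3 ^ g * s ^ (g - (j : ℕ))

def TT (g : ℕ) (s : ℝ) (j : Fin g) : Finset ℤ := Icc (-⌊RR g s j⌋) ⌊RR g s j⌋

def SS (g : ℕ) (s : ℝ) (j : Fin g) : Finset ℝ :=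
  (TT g s j).image (fun a : ℤ => (a : ℝ) / s ^ (g - (j : ℕ)))

theorem pow_ge {g : ℕ} {s : ℝ} (hs : 1 ≤ s) (j : Fin g) : s ≤ s ^ (g - (j : ℕ)) := by
  have h : g - (j : ℕ) ≠ 0 := by have := j.2; omega
  exact le_self_pow₀ hs h

theorem RR_ge {g : ℕ} {s : ℝ} (hs : 1 ≤ s) (j : Fin g) : s ≤ RR g s j := by
  have h1 := pow_ge hs j
  have h2 : (1 : ℝ) ≤ 3 ^ g := one_le_pow₀ (by norm_num)
  have h3 : 0 ≤ s ^ (g - (j : ℕ)) := by positivity
  unfold RR
  nlinarith

theorem card_TT {g : ℕ} {s : ℝ} (hs : 1 ≤ s) (j : Fin g) :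
    ((TT g s j).card : ℝ) = 2 * (⌊RR g s j⌋ : ℝ) + 1 := by
  have h1 := RR_ge hs j
  have h0 : 0 ≤ ⌊RR g s j⌋ := Int.floor_nonneg.2 (by linarith)
  have h2 : ((TT g s j).card : ℤ) = 2 * ⌊RR g s j⌋ + 1 := by
    rw [TT, Int.card_Icc, Int.toNat_of_nonneg (by omega)]
    ring
  exact_mod_cast h2

theorem card_SS {g : ℕ} {s : ℝ} (hs : 1 ≤ s) (j : Fin g) : (SS g s j).card = (TT g s j).card := by
  have hp : s ^ (g - (j : ℕ)) ≠ 0 := by positivity
  refine card_image_of_injective _ fun a b h => ?_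
  have h' : (a : ℝ) / s ^ (g - (j : ℕ)) = (b : ℝ) / s ^ (g - (j : ℕ)) := h
  rw [div_left_inj' hp] at h'
  exact_mod_cast h'

theorem card_ge {g : ℕ} {s : ℝ} (hs : 1 ≤ s) (j : Fin g) : s ≤ ((SS g s j).card : ℝ) := by
  rw [card_SS hs, card_TT hs]
  have h1 := RR_ge hs j
  have h2 := Int.lt_floor_add_one (RR g s j)
  linarith

theorem card_le {g : ℕ} {s : ℝ} (hs : 1 ≤ s) (j : Fin g) :
    ((SS g s j).card : ℝ) ≤ 3 ^ (g + 1) * s ^ (g - (j : ℕ)) := by
  rw [card_SS hs, card_TT hs]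
  have h1 := RR_ge hs j
  have h2 := Int.floor_le (RR g s j)
  have h3 : (3 : ℝ) ^ (g + 1) * s ^ (g - (j : ℕ)) = 3 * RR g s j := by unfold RR; ring
  rw [h3]
  linarith

theorem sum_exp (g : ℕ) : ((∑ j : Fin g, (g - (j : ℕ)) : ℕ) : ℝ) = (g : ℝ) * (g + 1) / 2 := by
  have h : ∀ g : ℕ, 2 * ∑ j : Fin g, (g - (j : ℕ)) = g * (g + 1) := by
    intro g
    induction g with
    | zero => simp
    | succ g ih =>
      rw [Fin.sum_univ_succ]
      have : ∑ i : Fin g, (g + 1 - ((Fin.succ i : Fin (g + 1)) : ℕ)) = ∑ j : Fin g, (g - (j : ℕ)) := by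
        refine Finset.sum_congr rfl fun i _ => ?_
        rw [Fin.val_succ]; omega
      rw [this, mul_add, ih, Fin.val_zero]
      simp only [Nat.sub_zero]
      ring
  have h1 : (2 : ℝ) * ((∑ j : Fin g, (g - (j : ℕ)) : ℕ) : ℝ) = (g : ℝ) * (g + 1) := by
    exact_mod_cast h g
  linarith

theorem prod_le {g : ℕ} {s : ℝ} (hs : 1 ≤ s) :
    ∏ j : Fin g, ((SS g s j).card : ℝ) ≤ (3 ^ (g + 1)) ^ g * s ^ (∑ j : Fin g, (g - (j : ℕ))) := by
  calc ∏ j : Fin g, ((SS g s j).card : ℝ) ≤ ∏ j : Fin g, (3 ^ (g + 1) * s ^ (g - (j : ℕ))) :=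
        Finset.prod_le_prod (fun j _ => by positivity) fun j _ => card_le hs j
    _ = _ := by
        rw [Finset.prod_mul_distrib, Finset.prod_const, Finset.prod_pow_eq_pow_sum]
        simp

theorem rpow_eq (g q : ℕ) (hq : 1 ≤ q) :
    Real.sqrt q ^ (∑ j : Fin g, (g - (j : ℕ))) / Real.sqrt q =
      (q : ℝ) ^ ((g : ℝ) * (g + 1) / 4 - 1 / 2) := by
  have hq0 : (0 : ℝ) < q := by exact_mod_cast hq
  rw [Real.rpow_sub hq0, ← Real.sqrt_eq_rpow]
  congr 1
  rw [← Real.rpow_natCast, sum_exp, Real.sqrt_eq_rpow, ← Real.rpow_mul hq0.le]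
  congr 1
  ring

end BAD

open BAD

theorem t_BAD (h1 : S_SZL) (h2 : S_UPB) (h3 : S_SCL) : S_BAD := by
  classical
  intro g D hg hD
  obtain ⟨C, hC, hS⟩ := h1 g D hD
  refine ⟨C * (3 ^ (g + 1)) ^ g, by positivity, fun q hq => ?_⟩
  have hq1 : (1 : ℝ) ≤ q := by exact_mod_cast hq
  have hq0 : (0 : ℝ) ≤ q := by linarith
  obtain ⟨s, hs⟩ : ∃ s, s = Real.sqrt q := ⟨_, rfl⟩
  have hs1 : 1 ≤ s := by rw [hs]; exact Real.one_le_sqrt.2 hq1
  have hs0 : 0 < s := by linarith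
  have hss : s ^ 2 = q := by rw [hs]; exact Real.sq_sqrt hq0
  rw [← hs]
  refine ⟨(Fintype.piFinset (TT g s)).filter
    (fun a : Fin g → ℤ => MvPolynomial.eval (fun j : Fin g => (a j : ℝ) / s ^ (g - (j : ℕ))) D = 0), ?_, ?_⟩
  · have hle : ((Fintype.piFinset (TT g s)).filter
        (fun a : Fin g → ℤ => MvPolynomial.eval (fun j : Fin g => (a j : ℝ) / s ^ (g - (j : ℕ))) D = 0)).card ≤
        ((Fintype.piFinset (SS g s)).filter (fun b => MvPolynomial.eval b D = 0)).card := by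
      refine Finset.card_le_card_of_injOn (fun (a : Fin g → ℤ) (j : Fin g) => (a j : ℝ) / s ^ (g - (j : ℕ))) ?_ ?_
      · intro a ha
        have ha' := (Finset.mem_filter.1 (Finset.mem_coe.1 ha))
        refine Finset.mem_coe.2 (Finset.mem_filter.2 ⟨Fintype.mem_piFinset.2 fun j => ?_, ha'.2⟩)
        exact Finset.mem_image_of_mem _ (Fintype.mem_piFinset.1 ha'.1 j)
      · intro a _ b _ hab
        funext j
        have h' : (a j : ℝ) / s ^ (g - (j : ℕ)) = (b j : ℝ) / s ^ (g - (j : ℕ)) := congrFun hab j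
        have hp : s ^ (g - (j : ℕ)) ≠ 0 := by positivity
        rw [div_left_inj' hp] at h'
        exact_mod_cast h'
    have h4 := hS (SS g s) s hs0 fun j => card_ge hs1 j
    have h5 := prod_le (g := g) hs1
    have h6 := rpow_eq g q hq
    rw [← hs] at h6
    calc _ ≤ (((Fintype.piFinset (SS g s)).filter (fun b => MvPolynomial.eval b D = 0)).card : ℝ) := by
          exact_mod_cast hle
      _ ≤ C / s * ∏ j, ((SS g s j).card : ℝ) := h4
      _ ≤ C / s * ((3 ^ (g + 1)) ^ g * s ^ (∑ j : Fin g, (g - (j : ℕ)))) :=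
          mul_le_mul_of_nonneg_left h5 (by positivity)
      _ = C * (3 ^ (g + 1)) ^ g * (q : ℝ) ^ ((g : ℝ) * (g + 1) / 4 - 1 / 2) := by
          rw [← h6]; ring
  · intro a x hx ha he
    refine Finset.mem_filter.2 ⟨Fintype.mem_piFinset.2 fun j => ?_, he⟩
    have hb : RootsOf (fun j => (a j : ℝ) / s ^ (g - (j : ℕ))) (fun i => x i / s) := by
      rw [h3 g _ _ s hs0]
      have e1 : (fun j : Fin g => s ^ (g - (j : ℕ)) * ((a j : ℝ) / s ^ (g - (j : ℕ)))) =
          fun j => (a j : ℝ) := by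
        funext j
        have hp : s ^ (g - (j : ℕ)) ≠ 0 := by positivity
        field_simp
      have e2 : (fun i : Fin g => s * (x i / s)) = x := by
        funext i
        field_simp
      rw [e1, e2]
      exact ha
    have hy : ∀ i, |x i / s| ≤ 2 := by
      intro i
      have h4 := hx i
      rw [← hss] at h4
      rw [abs_div, abs_of_pos hs0, div_le_iff₀ hs0]
      exact abs_le_of_sq_le_sq (by nlinarith) (by positivity)
    have h5 := h2 g _ _ hb hy j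
    have hp : 0 < s ^ (g - (j : ℕ)) := by positivity
    rw [abs_div, abs_of_pos hp, div_le_iff₀ hp] at h5
    have h6 : |(a j : ℝ)| ≤ RR g s j := h5
    rw [abs_le] at h6
    refine Finset.mem_Icc.2 ⟨?_, Int.le_floor.2 h6.2⟩
    have h7 : -a j ≤ ⌊RR g s j⌋ := Int.le_floor.2 (by push_cast; linarith [h6.1])
    linarith

end Pool.Agent.H18W
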