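import Pool.Agent.H18W.Stm

/-!
# Piece CNT (helper58): the number of the Weil polynomials
-/

set_option autoImplicit false

noncomputable section

namespace Pool.Agent.H18W

open Polynomial Finset

namespace CNT

theorem prod_pow (s : ℝ) (hs : 0 < s) (g : ℕ) :
    ∏ j : Fin g, s ^ (g - (j : ℕ)) = s ^ ((g : ℝ) * (g + 1) / 2) := by
  induction g with
  | zero => simp
  | succ g ih =>
    rw [Fin.prod_univ_succ]
    have h1 : ∀ j : Fin g, s ^ (g + 1 - (j.succ : ℕ)) = s ^ (g - (j : ℕ)) := by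
      intro j
      rw [Fin.val_succ, Nat.add_sub_add_right]
    simp only [h1]
    rw [ih, Fin.val_zero, Nat.sub_zero, ← Real.rpow_natCast, ← Real.rpow_add hs]
    congr 1
    push_cast
    ring

theorem icc_card (lo hi : ℝ) (e : ℝ) (he : 1 ≤ e) (h : lo + 2 * e ≤ hi) :
    e ≤ ((Finset.Icc ⌈lo⌉ ⌊hi⌋).card : ℝ) := by
  have h1 : ((⌊hi⌋ + 1 - ⌈lo⌉ : ℤ) : ℝ) ≤ ((Finset.Icc ⌈lo⌉ ⌊hi⌋).card : ℝ) := by
    rw [Int.card_Icc]
    have h2 : (⌊hi⌋ + 1 - ⌈lo⌉ : ℤ) ≤ ((⌊hi⌋ + 1 - ⌈lo⌉).toNat : ℤ) := Int.self_le_toNat _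
    exact_mod_cast h2
  refine le_trans ?_ h1
  push_cast
  have h3 := Int.lt_floor_add_one hi
  have h4 := Int.ceil_lt_add_one lo
  linarith

theorem zero_rw {g : ℕ} (q : ℕ) : IsRW q (0 : Fin g → ℤ) := by
  refine ⟨fun _ => 0, fun i => ?_, ?_⟩
  · have h : (0 : ℝ) ^ 2 ≤ 4 * (q : ℝ) := by
      rw [zero_pow (by norm_num)]
      positivity
    exact h
  · unfold RootsOf rp
    simp

end CNT

open CNT in
theorem t_CNT (h1 : S_PER) (h2 : S_SCL) : S_CNT := by
  classical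
  intro g
  obtain ⟨b₀, ε₀, hε₀, hb₀⟩ := h1 g
  obtain ⟨ε, hε⟩ : ∃ ε, ε = min ε₀ 1 := ⟨_, rfl⟩
  have hε0 : 0 < ε := by rw [hε]; exact lt_min hε₀ one_pos
  have hε1 : ε ≤ 1 := by rw [hε]; exact min_le_right _ _
  have hεε : ε ≤ ε₀ := by rw [hε]; exact min_le_left _ _
  have he : 0 ≤ (g : ℝ) * (g + 1) / 2 := by positivity
  have hc2 : ε ^ ((g : ℝ) * (g + 1) / 2) ≤ 1 := Real.rpow_le_one hε0.le hε1 he
  refine ⟨ε ^ g * ε ^ ((g : ℝ) * (g + 1) / 2), by positivity, fun q hq => ?_⟩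
  obtain ⟨s, hs⟩ : ∃ s, s = Real.sqrt q := ⟨_, rfl⟩
  have hq1 : (1 : ℝ) ≤ q := by exact_mod_cast hq
  have hq0 : (0 : ℝ) ≤ q := by linarith
  have hs1 : 1 ≤ s := by rw [hs]; exact Real.one_le_sqrt.2 hq1
  have hs0 : 0 < s := by linarith
  have hsq : s ^ 2 = q := by rw [hs]; exact Real.sq_sqrt hq0
  have hpow : (q : ℝ) ^ ((g : ℝ) * (g + 1) / 4) = s ^ ((g : ℝ) * (g + 1) / 2) := by
    rw [← hsq, ← Real.rpow_natCast s 2, ← Real.rpow_mul hs0.le]
    congr 1
    push_cast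
    ring
  rw [hpow]
  rcases le_total 1 (ε * s) with h | h
  · -- many polynomials
    refine ⟨Fintype.piFinset fun j : Fin g => Finset.Icc ⌈s ^ (g - (j : ℕ)) * (b₀ j - ε)⌉
      ⌊s ^ (g - (j : ℕ)) * (b₀ j + ε)⌋, ?_, ?_⟩
    · rw [Fintype.card_piFinset, Nat.cast_prod]
      have h3 : ∏ j : Fin g, (ε * s ^ (g - (j : ℕ))) ≤ ∏ j : Fin g,
          ((Finset.Icc ⌈s ^ (g - (j : ℕ)) * (b₀ j - ε)⌉
            ⌊s ^ (g - (j : ℕ)) * (b₀ j + ε)⌋).card : ℝ) := by
        refine Finset.prod_le_prod (fun j _ => by positivity) fun j _ => ?_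
        refine icc_card _ _ _ ?_ (le_of_eq (by ring))
        refine h.trans (mul_le_mul_of_nonneg_left ?_ hε0.le)
        have h4 : s ^ 1 ≤ s ^ (g - (j : ℕ)) := pow_le_pow_right₀ hs1 (by omega)
        rwa [pow_one] at h4
      rw [Finset.prod_mul_distrib, Finset.prod_const, Finset.card_univ, Fintype.card_fin,
        prod_pow s hs0 g] at h3
      refine le_trans ?_ h3
      refine mul_le_mul_of_nonneg_right ?_ (by positivity)
      exact mul_le_of_le_one_right (by positivity) hc2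
    · intro a ha
      rw [Fintype.mem_piFinset] at ha
      obtain ⟨y, hy, hroot⟩ := hb₀ (fun j => (a j : ℝ) / s ^ (g - (j : ℕ))) (by
        intro j
        have h3 := Finset.mem_Icc.1 (ha j)
        have h4 := Int.ceil_le.1 h3.1
        have h5 := Int.le_floor.1 h3.2
        have hsp : 0 < s ^ (g - (j : ℕ)) := by positivity
        refine le_trans ?_ hεε
        rw [abs_le]
        constructor
        · rw [neg_le_sub_iff_le_add, ← sub_le_iff_le_add, le_div_iff₀ hsp, mul_comm]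
          exact h4
        · rw [sub_le_iff_le_add, add_comm, div_le_iff₀ hsp, mul_comm]
          exact h5)
      refine ⟨fun i => s * y i, fun i => ?_, ?_⟩
      · have h3 := hy i
        have h4 : y i ^ 2 ≤ 4 := by
          have := sq_le_sq' (neg_le_of_abs_le h3) (le_of_abs_le h3)
          linarith
        rw [mul_pow, hsq]
        nlinarith
      · have h3 := (h2 g _ y s hs0).1 hroot
        have h4 : (fun j : Fin g => s ^ (g - (j : ℕ)) * ((a j : ℝ) / s ^ (g - (j : ℕ)))) =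
            fun j => (a j : ℝ) := by
          funext j
          have hsp : s ^ (g - (j : ℕ)) ≠ 0 := by positivity
          field_simp
        rwa [h4] at h3
  · refine ⟨{0}, ?_, ?_⟩
    · rw [Finset.card_singleton, Nat.cast_one, mul_assoc, ← Real.mul_rpow hε0.le hs0.le]
      have h3 : (ε * s) ^ ((g : ℝ) * (g + 1) / 2) ≤ 1 := Real.rpow_le_one (by positivity) h he
      have h4 : ε ^ g ≤ 1 := pow_le_one₀ hε0.le hε1
      calc ε ^ g * (ε * s) ^ ((g : ℝ) * (g + 1) / 2) ≤ 1 * 1 :=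
            mul_le_mul h4 h3 (by positivity) zero_le_one
        _ = 1 := one_mul 1
    · intro a ha
      rw [Finset.mem_singleton.1 ha]
      exact zero_rw q

end Pool.Agent.H18W
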