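import Pool.Agent.H18W.Stm

/-!
# Project WF, piece DIS: the eigenvalues are different
-/

set_option autoImplicit false

noncomputable section

namespace Pool.Agent.H18W

open Polynomial Finset

theorem t_DIS : S_DIS := by
  intro g y hy β h1 h2
  have h1' : ∀ (i : Fin g) (a : Bool), β (i, a) * β (i, !a) = 1 := by
    intro i a
    cases a
    · rw [Bool.not_false, mul_comm]; exact h1 i
    · rw [Bool.not_true]; exact h1 i
  have h2' : ∀ (i : Fin g) (a : Bool), β (i, a) + β (i, !a) = (y i : ℂ) := by
    intro i a
    cases a
    · rw [Bool.not_false, add_comm]; exact h2 i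
    · rw [Bool.not_true]; exact h2 i
  rintro ⟨i, a⟩ ⟨j, b⟩ h
  have hne : β (i, a) ≠ 0 := fun h0 => by
    have := h1' i a
    rw [h0, zero_mul] at this
    exact zero_ne_one this
  have h3 : β (i, !a) = β (j, !b) := by
    have e1 := h1' i a
    have e2 := h1' j b
    rw [← h, ← e1] at e2
    exact (mul_left_cancel₀ hne e2).symm
  have h4 : (y i : ℂ) = (y j : ℂ) := by rw [← h2' i a, ← h2' j b, h, h3]
  have h5 : y i = y j := by exact_mod_cast h4
  have hij : i = j := by
    by_contra hij
    exact hy.two i j hij (by rw [h5])
  subst hij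
  have hab : a = b := by
    by_contra hab
    have hb : b = !a := by
      cases a <;> cases b <;> simp_all
    subst hb
    have e1 := h1' i a
    rw [← h] at e1
    have e2 := h2' i a
    rw [← h] at e2
    have e3 : (y i : ℂ) ^ 2 = 4 := by
      rw [← e2]
      linear_combination 4 * e1
    have e4 : y i ^ 2 = 4 := by exact_mod_cast e3
    exact (hy.one i).2 e4
  rw [hab]

end Pool.Agent.H18W

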