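import Pool.Agent.H18W.Stm

/-!
# Project WF, piece EIG (helper55): an eigenbasis
-/

set_option autoImplicit false

noncomputable section

namespace Pool.Agent.H18W

open Polynomial Finset

theorem EIG.exists_pair (y : ℂ) : ∃ a b : ℂ, a * b = 1 ∧ a + b = y := by
  obtain ⟨s, hs⟩ := IsAlgClosed.exists_pow_nat_eq (y ^ 2 - 4) (n := 2) (by norm_num)
  refine ⟨(y + s) / 2, (y - s) / 2, ?_, by ring⟩
  have : (y + s) / 2 * ((y - s) / 2) = (y ^ 2 - s ^ 2) / 4 := by ring
  rw [this, hs]
  ring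

theorem t_EIG : S_EIG := by
  intro g q x V _ _ _ t hq hchar hinj
  have hq0 : (0 : ℝ) < Real.sqrt q := Real.sqrt_pos.mpr (by exact_mod_cast hq)
  have hqc : ((Real.sqrt q : ℝ) : ℂ) ≠ 0 := by exact_mod_cast hq0.ne'
  have hq2 : ((Real.sqrt q : ℝ) : ℂ) * ((Real.sqrt q : ℝ) : ℂ) = (q : ℂ) := by
    rw [← Complex.ofReal_mul, Real.mul_self_sqrt (Nat.cast_nonneg _), Complex.ofReal_natCast]
  choose b₁ b₂ hb1 hb2 using fun i : Fin g => EIG.exists_pair ((x i / Real.sqrt q : ℝ) : ℂ)
  obtain ⟨β, hβ⟩ : ∃ β : Fin g × Bool → ℂ, β = fun u => if u.2 = true then b₁ u.1 else b₂ u.1 :=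
    ⟨_, rfl⟩
  have hβt : ∀ i, β (i, true) = b₁ i := by intro i; rw [hβ]; rfl
  have hβf : ∀ i, β (i, false) = b₂ i := by intro i; rw [hβ]; rfl
  have hβ1 : ∀ i, β (i, true) * β (i, false) = 1 := by
    intro i; rw [hβt, hβf]; exact hb1 i
  have hβ2 : ∀ i, β (i, true) + β (i, false) = ((x i / Real.sqrt q : ℝ) : ℂ) := by
    intro i; rw [hβt, hβf]; exact hb2 i
  obtain ⟨α, hα⟩ : ∃ α : Fin g × Bool → ℂ, α = fun u => ((Real.sqrt q : ℝ) : ℂ) * β u :=
    ⟨_, rfl⟩
  have hαi : Function.Injective α := by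
    intro u v huv
    rw [hα] at huv
    exact hinj β hβ1 hβ2 (mul_left_cancel₀ hqc huv)
  have hfac : t.charpoly = ∏ u : Fin g × Bool, (X - C (α u)) := by
    rw [hchar, Fintype.prod_prod_type]
    refine Finset.prod_congr rfl fun i _ => ?_
    rw [Fintype.prod_bool]
    have h1 : (x i : ℂ) = α (i, true) + α (i, false) := by
      rw [hα]
      simp only
      rw [← mul_add, hβ2]
      push_cast
      field_simp
    have h2 : (q : ℂ) = α (i, true) * α (i, false) := by
      rw [hα]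
      simp only
      rw [mul_mul_mul_comm, hβ1, mul_one, hq2]
    rw [h1, h2, C_add, C_mul]
    ring
  have hev : ∀ u, ∃ v, t.HasEigenvector (α u) v := by
    intro u
    apply Module.End.HasEigenvalue.exists_hasEigenvector
    rw [Module.End.hasEigenvalue_iff_isRoot_charpoly, hfac, IsRoot.def, eval_prod]
    exact Finset.prod_eq_zero (Finset.mem_univ u) (by simp)
  choose w hw using hev
  have hli : LinearIndependent ℂ w :=
    Module.End.eigenvectors_linearIndependent' t α hαi w hw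
  have hcard : Fintype.card (Fin g × Bool) = Module.finrank ℂ V := by
    rw [← LinearMap.charpoly_natDegree t, hfac, natDegree_finsetProd_X_sub_C_eq_card,
      Finset.card_univ]
  have hspan := hli.span_eq_top_of_card_eq_finrank' hcard
  refine ⟨β, Module.Basis.mk hli hspan.ge, hβ1, hβ2, fun u => ?_⟩
  rw [Module.Basis.mk_apply, (hw u).apply_eq_smul, hα]

end Pool.Agent.H18W
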