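import Pool.Agent.H18W.Stm

/-!
# Project WF, piece FGD: the polynomial of the bad vectors
-/

set_option autoImplicit false

namespace Pool.Agent.H18W

theorem t_FGD : S_FGD := by
  intro g y h
  unfold ff at h
  rw [map_mul, map_mul, map_prod, map_prod, map_prod] at h
  have h1 := left_ne_zero_of_mul (left_ne_zero_of_mul h)
  have h2 := right_ne_zero_of_mul (left_ne_zero_of_mul h)
  have h3 := right_ne_zero_of_mul h
  rw [Finset.prod_ne_zero_iff] at h1 h2 h3
  refine ⟨fun i => ?_, fun i j hij hy => ?_, fun i j k l hkl hs hr => ?_⟩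
  · have h4 := h1 i (Finset.mem_univ i)
    simp only [map_mul, map_sub, map_pow, MvPolynomial.eval_X, map_ofNat] at h4
    exact ⟨left_ne_zero_of_mul h4, sub_ne_zero.1 (right_ne_zero_of_mul h4)⟩
  · have h4 := h2 (i, j) (Finset.mem_univ _)
    rw [if_pos (show (i, j).1 ≠ (i, j).2 from hij)] at h4
    apply h4
    simp only [map_sub, map_pow, MvPolynomial.eval_X]
    rw [hy, sub_self]
  · have h4 := h3 ((i, j), (k, l)) (Finset.mem_univ _)
    rw [if_pos (show ((i, j), (k, l)).2.1 ≠ ((i, j), (k, l)).2.2 ∧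
      s(((i, j), (k, l)).1.1, ((i, j), (k, l)).1.2) ≠ s(((i, j), (k, l)).2.1, ((i, j), (k, l)).2.2)
      from ⟨hkl, hs⟩)] at h4
    apply h4
    simp only [map_add, map_sub, map_mul, map_pow, MvPolynomial.eval_X, map_ofNat]
    rw [← hr]
    unfold rs bb cc
    ring

end Pool.Agent.H18W
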