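import Pool.Agent.H18W.Stm

/-! Piece FNZ of project WF (helper18). -/

set_option autoImplicit false

namespace Pool.Agent.H18W

namespace FNZ

theorem nz {g : ℕ} (P : MvPolynomial (Fin g) ℝ) (y : Fin g → ℝ) (h : MvPolynomial.eval y P ≠ 0) : P ≠ 0 := by
  rintro rfl
  simp at h

end FNZ

theorem t_FNZ : S_FNZ := by
  intro g
  unfold ff
  refine mul_ne_zero (mul_ne_zero ?_ ?_) ?_
  · rw [Finset.prod_ne_zero_iff]
    intro i _
    apply FNZ.nz _ (fun _ => 1)
    simp only [map_mul, map_sub, map_pow, MvPolynomial.eval_X, map_ofNat]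
    norm_num
  · rw [Finset.prod_ne_zero_iff]
    rintro ⟨i, j⟩ _
    dsimp only
    split_ifs with h
    · apply FNZ.nz _ (fun m => if m = i then 1 else 0)
      simp only [map_sub, map_pow, MvPolynomial.eval_X]
      simp [Ne.symm h]
    · exact one_ne_zero
  · rw [Finset.prod_ne_zero_iff]
    rintro ⟨⟨i, j⟩, ⟨k, l⟩⟩ _
    dsimp only
    split_ifs with h
    · obtain ⟨h1, h2⟩ := h
      have h3 : ∃ m, (m = k ∨ m = l) ∧ m ≠ i ∧ m ≠ j := by
        by_contra hc
        push Not at hc
        have hk := hc k (Or.inl rfl)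
        have hl := hc l (Or.inr rfl)
        apply h2
        rw [Sym2.eq_iff]
        by_cases hki : k = i
        · left
          refine ⟨hki.symm, ?_⟩
          exact (hl (fun e => h1 (hki.trans e.symm))).symm
        · right
          have hkj := hk hki
          refine ⟨?_, hkj.symm⟩
          by_contra hli
          exact h1 (hkj.trans (hl (fun e => hli e.symm)).symm)
      obtain ⟨m, hm, hmi, hmj⟩ := h3
      apply FNZ.nz _ (fun t => if t = m then 1 else 0)
      simp only [map_sub, map_pow, map_add, map_mul, MvPolynomial.eval_X, map_ofNat]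
      rw [if_neg (Ne.symm hmi), if_neg (Ne.symm hmj)]
      rcases hm with rfl | rfl
      · rw [if_pos rfl, if_neg (Ne.symm h1)]
        norm_num
      · rw [if_pos rfl, if_neg h1]
        norm_num
    · exact one_ne_zero

end Pool.Agent.H18W
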