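import Pool.Agent.H18W.Stm

set_option autoImplicit false

noncomputable section

namespace Pool.Agent.H18W

open Finset

namespace FSY

/-- a product over all the indices is symmetric if the factors are permuted -/
theorem prod_sym {g : ℕ} {ι : Type} [Fintype ι] (e : Equiv.Perm (Fin g)) (σ : ι ≃ ι)
    (F : ι → MvPolynomial (Fin g) ℝ) (h : ∀ p, MvPolynomial.rename e (F p) = F (σ p)) :
    MvPolynomial.rename e (∏ p, F p) = ∏ p, F p := by
  rw [map_prod, Finset.prod_congr rfl fun p _ => h p]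
  exact Equiv.prod_comp σ F

end FSY

theorem t_FSY : S_FSY := by
  intro g e
  have h4 : MvPolynomial.rename e (4 : MvPolynomial (Fin g) ℝ) = 4 := map_ofNat _ 4
  unfold ff
  rw [map_mul, map_mul]
  congr 1
  · congr 1
    · refine FSY.prod_sym e e _ fun i => ?_
      simp [h4]
    · refine FSY.prod_sym e (Equiv.prodCongr e e) _ fun p => ?_
      by_cases h : p.1 = p.2
      · simp [h]
      · have h' : e p.1 ≠ e p.2 := fun h1 => h (e.injective h1)
        simp [h, h']
  · refine FSY.prod_sym e (Equiv.prodCongr (Equiv.prodCongr e e) (Equiv.prodCongr e e)) _ fun p => ?_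
    have hs : s(e p.1.1, e p.1.2) = s(e p.2.1, e p.2.2) ↔ s(p.1.1, p.1.2) = s(p.2.1, p.2.2) := by
      rw [Sym2.eq_iff, Sym2.eq_iff]
      simp only [e.injective.eq_iff]
    by_cases h : p.2.1 ≠ p.2.2 ∧ s(p.1.1, p.1.2) ≠ s(p.2.1, p.2.2)
    · have h' : e p.2.1 ≠ e p.2.2 ∧ s(e p.1.1, e p.1.2) ≠ s(e p.2.1, e p.2.2) :=
        ⟨fun h1 => h.1 (e.injective h1), fun h1 => h.2 (hs.1 h1)⟩
      rw [if_pos h]
      simp only [Equiv.prodCongr_apply, Prod.map_fst, Prod.map_snd]
      rw [if_pos h']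
      simp [h4]
    · have h' : ¬ (e p.2.1 ≠ e p.2.2 ∧ s(e p.1.1, e p.1.2) ≠ s(e p.2.1, e p.2.2)) := fun h1 =>
        h ⟨fun h2 => h1.1 (congrArg e h2), fun h2 => h1.2 (hs.2 h2)⟩
      rw [if_neg h]
      simp only [Equiv.prodCongr_apply, Prod.map_fst, Prod.map_snd]
      rw [if_neg h', map_one]

end Pool.Agent.H18W
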