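import Pool.Agent.H18W.Stm

/-!
# Piece PER: an open set of polynomials with real roots
-/

set_option autoImplicit false

noncomputable section

namespace Pool.Agent.H18W

open Polynomial Finset

namespace PER

/-- the roots of the base polynomial -/
def c (g : ℕ) (i : Fin g) : ℝ := 2 * ((i : ℝ) + 1) / (g + 1) - 1

/-- the points between the roots -/
def t (g m : ℕ) : ℝ := (2 * (m : ℝ) + 1) / (g + 1) - 1

/-- the signs -/
def sg (g m : ℕ) : ℝ := ∏ i : Fin g, (if (i : ℕ) < m then (1 : ℝ) else -1)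

theorem sg_abs (g m : ℕ) : |sg g m| = 1 := by
  unfold sg
  rw [Finset.abs_prod]
  refine Finset.prod_eq_one fun i _ => ?_
  split_ifs <;> simp

theorem sg_mul {g m : ℕ} (hm : m < g) : sg g m * sg g (m + 1) = -1 := by
  unfold sg
  rw [← Finset.prod_mul_distrib]
  have h : ∀ i : Fin g, (if (i : ℕ) < m then (1 : ℝ) else -1) *
      (if (i : ℕ) < m + 1 then (1 : ℝ) else -1) = if i = ⟨m, hm⟩ then (-1 : ℝ) else 1 := by
    intro i
    by_cases h1 : (i : ℕ) < m
    · have h2 : (i : ℕ) < m + 1 := by omega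
      have h3 : i ≠ ⟨m, hm⟩ := fun e => by
        rw [e] at h1
        simp at h1
      rw [if_pos h1, if_pos h2, if_neg h3]
      norm_num
    · by_cases h2 : (i : ℕ) < m + 1
      · have h3 : i = ⟨m, hm⟩ := Fin.ext (by simp; omega)
        rw [if_neg h1, if_pos h2, if_pos h3]
        norm_num
      · have h3 : i ≠ ⟨m, hm⟩ := fun e => by
          rw [e] at h2
          simp at h2
        rw [if_neg h1, if_neg h2, if_neg h3]
        norm_num
  rw [Finset.prod_congr rfl fun i _ => h i, Finset.prod_ite_eq' Finset.univ (⟨m, hm⟩ : Fin g)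
    (fun _ => (-1 : ℝ))]
  simp

theorem sg_succ {g m : ℕ} (hm : m < g) : sg g m = -sg g (m + 1) := by
  have h1 := sg_mul hm
  have h2 := sg_abs g (m + 1)
  have h3 : sg g (m + 1) * sg g (m + 1) = 1 := by
    rw [← abs_mul_abs_self, h2, one_mul]
  calc sg g m = sg g m * (sg g (m + 1) * sg g (m + 1)) := by rw [h3, mul_one]
    _ = (sg g m * sg g (m + 1)) * sg g (m + 1) := by ring
    _ = -sg g (m + 1) := by rw [h1]; ring

theorem t_abs {g m : ℕ} (hm : m ≤ g) : |t g m| ≤ 1 := by
  have hg : (0 : ℝ) < g + 1 := by positivity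
  have hm' : (m : ℝ) ≤ g := by exact_mod_cast hm
  have hm0 : (0 : ℝ) ≤ m := Nat.cast_nonneg m
  unfold t
  rw [abs_le]
  constructor
  · have : 0 ≤ (2 * (m : ℝ) + 1) / (g + 1) := by positivity
    linarith
  · have : (2 * (m : ℝ) + 1) / (g + 1) ≤ 2 := by
      rw [div_le_iff₀ hg]
      linarith
    linarith

theorem t_lt (g m : ℕ) : t g m < t g (m + 1) := by
  have hg : (0 : ℝ) < g + 1 := by positivity
  unfold t
  have : (2 * (m : ℝ) + 1) / (g + 1) < (2 * ((m + 1 : ℕ) : ℝ) + 1) / (g + 1) := by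
    rw [div_lt_div_iff_of_pos_right hg]
    push_cast
    linarith
  linarith

theorem t_mono (g : ℕ) : StrictMono (t g) := strictMono_nat_of_lt_succ (t_lt g)

theorem c_lt {g m : ℕ} {i : Fin g} (h : (i : ℕ) < m) : c g i < t g m := by
  have hg : (0 : ℝ) < g + 1 := by positivity
  have h' : (i : ℝ) + 1 ≤ m := by exact_mod_cast h
  unfold c t
  have : 2 * ((i : ℝ) + 1) / (g + 1) < (2 * (m : ℝ) + 1) / (g + 1) := by
    rw [div_lt_div_iff_of_pos_right hg]
    linarith
  linarith

theorem lt_c {g m : ℕ} {i : Fin g} (h : ¬ (i : ℕ) < m) : t g m < c g i := by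
  have hg : (0 : ℝ) < g + 1 := by positivity
  have h' : (m : ℝ) ≤ i := by exact_mod_cast (not_lt.mp h)
  unfold c t
  have : (2 * (m : ℝ) + 1) / (g + 1) < 2 * ((i : ℝ) + 1) / (g + 1) := by
    rw [div_lt_div_iff_of_pos_right hg]
    linarith
  linarith

/-- the base polynomial -/
def P (g : ℕ) : ℝ[X] := ∏ i, (X - C (c g i))

theorem P_monic (g : ℕ) : (P g).Monic := monic_prod_of_monic _ _ fun i _ => monic_X_sub_C _

theorem P_deg (g : ℕ) : (P g).natDegree = g := by
  unfold P
  rw [natDegree_finset_prod_X_sub_C_eq_card, Finset.card_univ, Fintype.card_fin]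

theorem P_sign (g m : ℕ) : 0 < sg g m * (P g).eval (t g m) := by
  unfold sg P
  rw [eval_prod, ← Finset.prod_mul_distrib]
  refine Finset.prod_pos fun i _ => ?_
  rw [eval_sub, eval_X, eval_C]
  by_cases h : (i : ℕ) < m
  · rw [if_pos h, one_mul]
    linarith [c_lt h]
  · rw [if_neg h]
    linarith [lt_c h]

theorem P_rp (g : ℕ) : rp (fun j : Fin g => (P g).coeff j) = P g := by
  have h := (P_monic g).as_sum
  rw [P_deg] at h
  conv_rhs => rw [h]
  unfold rp
  rw [Finset.sum_range]

theorem rp_monic {g : ℕ} (b : Fin g → ℝ) : (rp b).Monic :=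
  monic_X_pow_add (degree_sum_fin_lt b)

theorem rp_deg {g : ℕ} (b : Fin g → ℝ) : (rp b).degree = g := by
  unfold rp
  rw [degree_add_eq_left_of_degree_lt, degree_X_pow]
  rw [degree_X_pow]
  exact degree_sum_fin_lt b

theorem rp_eval {g : ℕ} (b : Fin g → ℝ) (x : ℝ) :
    (rp b).eval x = x ^ g + ∑ j : Fin g, b j * x ^ (j : ℕ) := by
  unfold rp
  rw [eval_add, eval_pow, eval_X, eval_finset_sum]
  congr 1
  refine Finset.sum_congr rfl fun j _ => ?_
  rw [eval_mul, eval_C, eval_pow, eval_X]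

theorem rp_sub {g : ℕ} {b b' : Fin g → ℝ} {x ε : ℝ} (hx : |x| ≤ 1)
    (h : ∀ j, |b j - b' j| ≤ ε) : |(rp b).eval x - (rp b').eval x| ≤ g * ε := by
  rw [rp_eval, rp_eval]
  have h1 : x ^ g + ∑ j : Fin g, b j * x ^ (j : ℕ) - (x ^ g + ∑ j : Fin g, b' j * x ^ (j : ℕ)) =
      ∑ j : Fin g, (b j - b' j) * x ^ (j : ℕ) := by
    rw [add_sub_add_left_eq_sub, ← Finset.sum_sub_distrib]
    refine Finset.sum_congr rfl fun j _ => ?_
    ring
  rw [h1]
  refine (Finset.abs_sum_le_sum_abs _ _).trans ?_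
  calc ∑ j : Fin g, |(b j - b' j) * x ^ (j : ℕ)| ≤ ∑ _j : Fin g, ε := by
        refine Finset.sum_le_sum fun j _ => ?_
        rw [abs_mul, abs_pow]
        have h2 : |x| ^ (j : ℕ) ≤ 1 := pow_le_one₀ (abs_nonneg x) hx
        calc |b j - b' j| * |x| ^ (j : ℕ) ≤ |b j - b' j| * 1 :=
              mul_le_mul_of_nonneg_left h2 (abs_nonneg _)
          _ ≤ ε := by rw [mul_one]; exact h j
    _ = g * ε := by rw [Finset.sum_const, Finset.card_univ, Fintype.card_fin, nsmul_eq_mul]

end PER

open PER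

theorem t_PER : S_PER := by
  intro g
  obtain ⟨m₀, -, hm₀⟩ := Finset.exists_min_image (Finset.range (g + 1))
    (fun m => sg g m * (P g).eval (t g m)) ⟨0, by simp⟩
  set δ : ℝ := sg g m₀ * (P g).eval (t g m₀) with hδ
  have hδ0 : 0 < δ := P_sign g m₀
  have hg : (0 : ℝ) < g + 1 := by positivity
  refine ⟨fun j => (P g).coeff j, δ / (g + 1), by positivity, fun b hb => ?_⟩
  have hev : ∀ m ≤ g, 0 < sg g m * (rp b).eval (t g m) := by
    intro m hm
    have h1 := rp_sub (t_abs hm) hb
    rw [P_rp] at h1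
    have h2 : δ ≤ sg g m * (P g).eval (t g m) := hm₀ m (Finset.mem_range.mpr (by omega))
    have h3 : (g : ℝ) * (δ / (g + 1)) < δ := by
      rw [mul_div_assoc', div_lt_iff₀ hg]
      nlinarith
    have h4 : |sg g m * ((rp b).eval (t g m) - (P g).eval (t g m))| < δ := by
      rw [abs_mul, sg_abs, one_mul]
      exact lt_of_le_of_lt h1 h3
    rw [abs_lt] at h4
    have h5 := h4.1
    rw [mul_sub] at h5
    linarith
  have root : ∀ m : Fin g, ∃ y, t g m < y ∧ y < t g (m + 1) ∧ (rp b).eval y = 0 := by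
    intro m
    have hlt : t g m < t g (m + 1) := t_lt g m
    have h1 := hev m m.2.le
    have h2 := hev (m + 1) m.2
    have h3 : sg g m * (rp b).eval (t g (m + 1)) < 0 := by
      rw [sg_succ m.2]
      linarith
    have h4 : ContinuousOn (fun x => sg g m * (rp b).eval x) (Set.Icc (t g m) (t g (m + 1))) :=
      (continuous_const.mul (rp b).continuous).continuousOn
    obtain ⟨y, hy1, hy2⟩ := intermediate_value_Ioo' hlt.le h4 ⟨h3, h1⟩
    refine ⟨y, hy1.1, hy1.2, ?_⟩
    have h5 : sg g m ≠ 0 := by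
      intro h0
      have := sg_abs g m
      rw [h0] at this
      simp at this
    exact (mul_eq_zero.mp hy2).resolve_left h5
  choose y hy1 hy2 hy3 using root
  have hmono : StrictMono y := by
    intro i j hij
    have h1 : (i : ℕ) + 1 ≤ j := hij
    calc y i < t g (i + 1) := hy2 i
      _ ≤ t g j := (t_mono g).monotone h1
      _ < y j := hy1 j
  refine ⟨y, fun i => ?_, ?_⟩
  · have h1 := t_abs (g := g) i.2.le
    have h2 := t_abs (g := g) (m := i + 1) i.2
    rw [abs_le] at h1 h2 ⊢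
    have h3 := hy1 i
    have h4 := hy2 i
    constructor <;> linarith [h1.1, h1.2, h2.1, h2.2]
  · unfold RootsOf
    have hd : (∏ i, (X - C (y i)) : ℝ[X]).degree = g := by
      rw [degree_eq_natDegree (monic_prod_of_monic _ _ fun i _ => monic_X_sub_C _).ne_zero,
        natDegree_finset_prod_X_sub_C_eq_card, Finset.card_univ, Fintype.card_fin]
    have hmon : (∏ i, (X - C (y i)) : ℝ[X]).Monic :=
      monic_prod_of_monic _ _ fun i _ => monic_X_sub_C _
    refine eq_of_degree_sub_lt_of_eval_finset_eq (Finset.univ.image y) ?_ ?_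
    · rw [Finset.card_image_of_injective _ hmono.injective, Finset.card_univ, Fintype.card_fin]
      have h1 := degree_sub_lt (p := rp b) (q := ∏ i, (X - C (y i)))
        ((rp_deg b).trans hd.symm) (rp_monic b).ne_zero
        ((rp_monic b).leadingCoeff.trans hmon.leadingCoeff.symm)
      rw [rp_deg] at h1
      exact h1
    · intro x hx
      obtain ⟨i, -, rfl⟩ := Finset.mem_image.mp hx
      rw [hy3 i, eval_prod]
      symm
      refine Finset.prod_eq_zero (Finset.mem_univ i) ?_
      rw [eval_sub, eval_X, eval_C, sub_self]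

end Pool.Agent.H18W
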