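import Pool.Agent.H18W.Stm

/-!
# Piece REL (helper75): only trivial relations between two eigenvalues
-/

set_option autoImplicit false

noncomputable section

namespace Pool.Agent.H18W

namespace REL

/-- the resultant vanishes if there is a common root -/
theorem rs_zero {g : ℕ} (y : Fin g → ℝ) (i j k l : Fin g) (x x' t t' m m' n n' : ℂ)
    (hx : x * x' = 1) (ht : t * t' = 1) (hm : m * m' = 1) (hn : n * n' = 1)
    (e : x * t = m * n) (sx : x + x' = y i) (st : t + t' = y j) (sm : m + m' = y k)
    (sn : n + n' = y l) : rs y i j k l = 0 := by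
  have e' : x' * t' = m' * n' := by
    calc x' * t' = (x' * t') * ((m * m') * (n * n')) := by rw [hm, hn]; ring
      _ = (x' * t') * ((m * n) * (m' * n')) := by ring
      _ = (x' * t') * ((x * t) * (m' * n')) := by rw [e]
      _ = (x * x') * (t * t') * (m' * n') := by ring
      _ = m' * n' := by rw [hx, ht]; ring
  have h1 : (x * t + x' * t') ^ 2 - ((y i : ℂ) * y j) * (x * t + x' * t')
      + ((y i : ℂ) ^ 2 + (y j : ℂ) ^ 2 - 4) = 0 := by
    rw [← sx, ← st]
    linear_combination (2 - x ^ 2 - x' ^ 2) * ht + (2 - t ^ 2 - t' ^ 2) * hx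
  have h2 : (x * t + x' * t') ^ 2 - ((y k : ℂ) * y l) * (x * t + x' * t')
      + ((y k : ℂ) ^ 2 + (y l : ℂ) ^ 2 - 4) = 0 := by
    rw [← sm, ← sn, e, e']
    linear_combination (2 - m ^ 2 - m' ^ 2) * hn + (2 - n ^ 2 - n' ^ 2) * hm
  have c1 : ((y i : ℂ) ^ 2 + (y j : ℂ) ^ 2 - 4) =
      ((y i : ℂ) * y j) * (x * t + x' * t') - (x * t + x' * t') ^ 2 := by
    linear_combination h1
  have c2 : ((y k : ℂ) ^ 2 + (y l : ℂ) ^ 2 - 4) =
      ((y k : ℂ) * y l) * (x * t + x' * t') - (x * t + x' * t') ^ 2 := by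
    linear_combination h2
  have key : ((rs y i j k l : ℝ) : ℂ) = 0 := by
    unfold rs bb cc
    push_cast
    rw [c1, c2]
    ring
  exact_mod_cast key

/-- squares of inverse numbers -/
theorem sq_eq (a : ℝ) (x x' : ℂ) (hx : x * x' = 1) (sx : x + x' = a) (h : x ^ 2 = 1) : a ^ 2 = 4 := by
  have h' : x' ^ 2 = 1 := by
    calc x' ^ 2 = x' ^ 2 * x ^ 2 := by rw [h]; ring
      _ = (x * x') ^ 2 := by ring
      _ = 1 := by rw [hx]; ring
  have key : ((a ^ 2 : ℝ) : ℂ) = ((4 : ℝ) : ℂ) := by
    push_cast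
    rw [← sx]
    linear_combination h + h' + 2 * hx
  exact_mod_cast key

theorem sq_eq' (a : ℝ) (x x' : ℂ) (hx : x * x' = 1) (sx : x + x' = a) (h : x ^ 2 = -1) : a = 0 := by
  have h' : x' ^ 2 = -1 := by
    calc x' ^ 2 = -(x' ^ 2 * x ^ 2) := by rw [h]; ring
      _ = -(x * x') ^ 2 := by ring
      _ = -1 := by rw [hx]; ring
  have key : ((a ^ 2 : ℝ) : ℂ) = ((0 : ℝ) : ℂ) := by
    push_cast
    rw [← sx]
    linear_combination h + h' + 2 * hx
  have k2 : a ^ 2 = 0 := by exact_mod_cast key
  exact pow_eq_zero_iff (two_ne_zero) |>.mp k2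

theorem sq_sq (a b : ℝ) (x x' t t' : ℂ) (hx : x * x' = 1) (ht : t * t' = 1) (sx : x + x' = a)
    (st : t + t' = b) (h : x ^ 2 = t ^ 2) : a ^ 2 = b ^ 2 := by
  have h' : x' ^ 2 = t' ^ 2 := by
    calc x' ^ 2 = x' ^ 2 * (t * t') ^ 2 := by rw [ht]; ring
      _ = x' ^ 2 * t ^ 2 * t' ^ 2 := by ring
      _ = x' ^ 2 * x ^ 2 * t' ^ 2 := by rw [h]
      _ = (x * x') ^ 2 * t' ^ 2 := by ring
      _ = t' ^ 2 := by rw [hx]; ring
  have key : ((a ^ 2 : ℝ) : ℂ) = ((b ^ 2 : ℝ) : ℂ) := by
    push_cast
    rw [← sx, ← st]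
    linear_combination h + h' + 2 * hx - 2 * ht
  exact_mod_cast key

section

variable {g : ℕ} {y : Fin g → ℝ} (hy : Good y) {β : Fin g × Bool → ℂ}
  (hinv : ∀ i a, β (i, a) * β (i, !a) = 1) (hsum : ∀ i a, β (i, a) + β (i, !a) = (y i : ℂ))

include hy hinv hsum

theorem ne_inv (i : Fin g) (a : Bool) : β (i, a) ≠ β (i, !a) := by
  intro h
  have h1 := hinv i a
  rw [← h] at h1
  exact (hy.one i).2 (sq_eq (y i) _ _ (hinv i a) (hsum i a) (by rw [sq]; exact h1))

/-- the case of equal indices -/
theorem same (e : Fin g × Bool → ℤ) (he : ∀ i a, e (i, a) + e (i, !a) = 0) (i j : Fin g) (a b c d : Bool)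
    (h : β (i, a) * β (j, b) = β (i, c) * β (j, d)) :
    e (i, a) + e (j, b) = e (i, c) + e (j, d) := by
  have nz : ∀ i a, β (i, a) ≠ 0 := fun i a h0 => by
    have := hinv i a
    rw [h0, zero_mul] at this
    exact zero_ne_one this
  by_cases hac : c = a
  · subst hac
    have h1 := mul_left_cancel₀ (nz i c) h
    by_cases hbd : d = b
    · rw [hbd]
    · have hd : d = !b := by cases b <;> cases d <;> simp_all
      rw [hd] at h1
      exact absurd h1 (ne_inv hy hinv hsum j b)
  · have hc : c = !a := by cases a <;> cases c <;> simp_all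
    rw [hc] at h
    by_cases hbd : d = b
    · rw [hbd] at h
      exact absurd (mul_right_cancel₀ (nz j b) h) (ne_inv hy hinv hsum i a)
    · have hd : d = !b := by cases b <;> cases d <;> simp_all
      rw [hd] at h
      -- the square of the product is one
      have h2 : (β (i, a) * β (j, b)) ^ 2 = 1 := by
        calc (β (i, a) * β (j, b)) ^ 2 = (β (i, a) * β (j, b)) * (β (i, a) * β (j, b)) := by ring
          _ = (β (i, a) * β (j, b)) * (β (i, !a) * β (j, !b)) := by rw [← h]
          _ = (β (i, a) * β (i, !a)) * (β (j, b) * β (j, !b)) := by ring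
          _ = 1 := by rw [hinv, hinv]; ring
      have h3 : β (j, b) ^ 2 = β (i, !a) ^ 2 := by
        calc β (j, b) ^ 2 = (β (i, a) * β (i, !a)) ^ 2 * β (j, b) ^ 2 := by rw [hinv]; ring
          _ = (β (i, a) * β (j, b)) ^ 2 * β (i, !a) ^ 2 := by ring
          _ = β (i, !a) ^ 2 := by rw [h2]; ring
      have hij : y j ^ 2 = y i ^ 2 := by
        refine sq_sq (y j) (y i) _ (β (j, !b)) _ (β (i, a)) (hinv j b) ?_ (hsum j b) ?_ h3
        · rw [mul_comm]; exact hinv i a
        · rw [add_comm]; exact hsum i a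
      have hji : j = i := by
        by_contra hne
        exact hy.two j i hne hij
      subst hji
      by_cases hab : b = a
      · subst hab
        exfalso
        have h4 : (β (j, b) ^ 2 - 1) * (β (j, b) ^ 2 + 1) = 0 := by
          have : (β (j, b) * β (j, b)) ^ 2 = 1 := h2
          linear_combination this
        rcases mul_eq_zero.mp h4 with h5 | h5
        · exact (hy.one j).2 (sq_eq (y j) _ _ (hinv j b) (hsum j b) (by linear_combination h5))
        · exact (hy.one j).1 (sq_eq' (y j) _ _ (hinv j b) (hsum j b) (by linear_combination h5))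
      · have hb : b = !a := by cases b <;> cases a <;> simp_all
        rw [hc, hd, hb]
        have h6 := he j a
        have h7 := he j (!a)
        linarith

/-- all cases -/
theorem main (e : Fin g × Bool → ℤ) (he : ∀ i a, e (i, a) + e (i, !a) = 0) (i j k l : Fin g)
    (a b c d : Bool) (h : β (i, a) * β (j, b) = β (k, c) * β (l, d)) :
    e (i, a) + e (j, b) = e (k, c) + e (l, d) := by
  by_cases hs : s(i, j) = s(k, l)
  · rcases Sym2.eq_iff.mp hs with ⟨rfl, rfl⟩ | ⟨rfl, rfl⟩
    · exact same hy hinv hsum e he _ _ a b c d h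
    · rw [add_comm (e (j, c))]
      exact same hy hinv hsum e he _ _ a b d c (by rw [h, mul_comm])
  · by_cases hkl : k = l
    · by_cases hij : i = j
      · subst hkl hij
        have hik : i ≠ k := fun hik => hs (by rw [hik])
        by_cases hab : b = a
        · subst hab
          by_cases hcd : d = c
          · subst hcd
            exact absurd (sq_sq (y i) (y k) _ _ _ _ (hinv i b) (hinv k d) (hsum i b) (hsum k d)
              (by rw [sq, sq]; exact h)) (hy.two i k hik)
          · have hd : d = !c := by cases d <;> cases c <;> simp_all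
            rw [hd, hinv] at h
            exact absurd (sq_eq (y i) _ _ (hinv i b) (hsum i b) (by rw [sq]; exact h)) (hy.one i).2
        · have hb : b = !a := by cases b <;> cases a <;> simp_all
          by_cases hcd : d = c
          · subst hcd
            rw [hb, hinv] at h
            exact absurd (sq_eq (y k) _ _ (hinv k d) (hsum k d) (by rw [sq]; exact h.symm)) (hy.one k).2
          · have hd : d = !c := by cases d <;> cases c <;> simp_all
            rw [hb, hd, he, he]
      · exact absurd (rs_zero y k l i j _ _ _ _ _ _ _ _ (hinv k c) (hinv l d) (hinv i a) (hinv j b)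
          h.symm (hsum k c) (hsum l d) (hsum i a) (hsum j b)) (hy.four k l i j hij (Ne.symm hs))
    · exact absurd (rs_zero y i j k l _ _ _ _ _ _ _ _ (hinv i a) (hinv j b) (hinv k c) (hinv l d)
          h (hsum i a) (hsum j b) (hsum k c) (hsum l d)) (hy.four i j k l hkl hs)

end

end REL

theorem t_REL : S_REL := by
  intro g y hy β h1 h2 i₀ h hh u v w z huv
  have hinv : ∀ i a, β (i, a) * β (i, !a) = 1 := by
    intro i a
    cases a
    · simpa [mul_comm] using h1 i
    · simpa using h1 i
  have hsum : ∀ i a, β (i, a) + β (i, !a) = (y i : ℂ) := by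
    intro i a
    cases a
    · simpa [add_comm] using h2 i
    · simpa using h2 i
  have he : ∀ i a, h (i, a) + h (i, !a) = 0 := by
    intro i a
    rw [hh, hh]
    by_cases hi : i = i₀
    · subst hi
      cases a <;> simp
    · cases a <;> simp [hi]
  obtain ⟨i, a⟩ := u
  obtain ⟨j, b⟩ := v
  obtain ⟨k, c⟩ := w
  obtain ⟨l, d⟩ := z
  exact REL.main hy hinv hsum h he i j k l a b c d huv

end Pool.Agent.H18W
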