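import Pool.Agent.H18W.Stm

set_option autoImplicit false

/-!
Project WF (helper18), piece SCL (by helper72): scaling of the roots.
-/

open Polynomial Finset

namespace Pool.Agent.H18W.SCL

theorem compL {g : ℕ} (b : Fin g → ℝ) (s : ℝ) :
    (rp (fun j : Fin g => s ^ (g - (j : ℕ)) * b j)).comp (C s * X) = C (s ^ g) * rp b := by
  unfold rp
  rw [add_comp, pow_comp, X_comp, Polynomial.sum_comp, mul_add, Finset.mul_sum, mul_pow, C_pow]
  congr 1
  apply Finset.sum_congr rfl
  intro j _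
  rw [mul_comp, C_comp, pow_comp, X_comp, mul_pow, ← C_pow, ← C_pow, C_mul]
  have h : s ^ g = s ^ (g - (j : ℕ)) * s ^ (j : ℕ) := by
    rw [← pow_add, Nat.sub_add_cancel j.2.le]
  rw [h, C_mul]
  ring

theorem compR {g : ℕ} (y : Fin g → ℝ) (s : ℝ) :
    (∏ i : Fin g, (X - C (s * y i))).comp (C s * X) = C (s ^ g) * ∏ i : Fin g, (X - C (y i)) := by
  rw [Polynomial.prod_comp]
  have h : ∀ i : Fin g, (X - C (s * y i)).comp (C s * X) = C s * (X - C (y i)) := by
    intro i
    rw [sub_comp, X_comp, C_comp, C_mul]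
    ring
  rw [Finset.prod_congr rfl (fun i _ => h i), Finset.prod_mul_distrib, Finset.prod_const,
    Finset.card_univ, Fintype.card_fin, C_pow]

theorem inj (P Q : ℝ[X]) (s : ℝ) (hs : s ≠ 0) (h : P.comp (C s * X) = Q.comp (C s * X)) : P = Q := by
  have h1 : ∀ R : ℝ[X], (R.comp (C s * X)).comp (C s⁻¹ * X) = R := by
    intro R
    rw [comp_assoc, mul_comp, C_comp, X_comp, ← mul_assoc, ← C_mul, mul_inv_cancel₀ hs, C_1,
      one_mul, comp_X]
  rw [← h1 P, h, h1 Q]

end Pool.Agent.H18W.SCL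

namespace Pool.Agent.H18W

theorem t_SCL : S_SCL := by
  intro g b y s hs
  have h1 := SCL.compL b s
  have h2 := SCL.compR y s
  have hC : (C (s ^ g) : ℝ[X]) ≠ 0 := by
    rw [Ne, C_eq_zero]
    exact pow_ne_zero _ hs.ne'
  unfold RootsOf
  constructor
  · intro h
    apply SCL.inj _ _ s hs.ne'
    rw [h1, h2, h]
  · intro h
    rw [h, h2] at h1
    exact (mul_left_cancel₀ hC h1).symm

end Pool.Agent.H18W
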