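import Pool.Agent.H18W.Stm

/-!
# Project WF, piece SYM: a symmetric polynomial of the roots is a polynomial in the coefficients
-/

set_option autoImplicit false

noncomputable section

namespace Pool.Agent.H18W

open Polynomial Finset

namespace SYM

/-- the lower coefficients of `rp b` -/
theorem coeff_rp {g : ℕ} (b : Fin g → ℝ) (j : Fin g) : (rp b).coeff (j : ℕ) = b j := by
  unfold rp
  have hj := j.2
  rw [coeff_add, coeff_X_pow, if_neg (by omega), zero_add, finsetSum_coeff]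
  rw [Finset.sum_eq_single j]
  · rw [coeff_C_mul, coeff_X_pow, if_pos rfl, mul_one]
  · intro k _ hk
    rw [coeff_C_mul, coeff_X_pow, if_neg, mul_zero]
    intro h
    exact hk (Fin.ext h.symm)
  · intro h
    exact absurd (Finset.mem_univ j) h

/-- Vieta for `RootsOf` -/
theorem vieta {g : ℕ} (b y : Fin g → ℝ) (h : RootsOf b y) (j : Fin g) :
    b j = (-1) ^ (g - (j : ℕ)) *
      MvPolynomial.eval y (MvPolynomial.esymm (Fin g) ℝ (g - (j : ℕ))) := by
  have h1 := coeff_rp b j
  unfold RootsOf at h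
  rw [h, Finset.prod_eq_multiset_prod] at h1
  have hj := j.2
  have hc : Multiset.card (Finset.univ.val.map y) = g := by
    simp
  have h2 := Multiset.prod_X_sub_C_coeff (Finset.univ.val.map y) (k := (j : ℕ)) (by omega)
  rw [Multiset.map_map, hc] at h2
  rw [← MvPolynomial.coe_aeval_eq_eval, RingHom.coe_coe,
    MvPolynomial.aeval_esymm_eq_multiset_esymm, ← h2, ← h1]
  rfl

/-- the substitution -/
def sg (g : ℕ) : MvPolynomial (Fin g) ℝ →ₐ[ℝ] MvPolynomial (Fin g) ℝ :=
  MvPolynomial.aeval (fun k : Fin g =>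
    MvPolynomial.C ((-1 : ℝ) ^ ((k : ℕ) + 1)) * MvPolynomial.X (Fin.rev k))

/-- the inverse substitution -/
def tu (g : ℕ) : MvPolynomial (Fin g) ℝ →ₐ[ℝ] MvPolynomial (Fin g) ℝ :=
  MvPolynomial.aeval (fun k : Fin g =>
    MvPolynomial.C ((-1 : ℝ) ^ (g - (k : ℕ))) * MvPolynomial.X (Fin.rev k))

theorem tu_sg (g : ℕ) (D : MvPolynomial (Fin g) ℝ) : tu g (sg g D) = D := by
  have h : (tu g).comp (sg g) = AlgHom.id ℝ _ := by
    apply MvPolynomial.algHom_ext
    intro k
    have hk := k.2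
    have e : g - ((Fin.rev k : Fin g) : ℕ) = (k : ℕ) + 1 := by
      rw [Fin.val_rev]
      omega
    rw [AlgHom.comp_apply, AlgHom.id_apply]
    unfold sg tu
    rw [MvPolynomial.aeval_X, map_mul, MvPolynomial.aeval_X, MvPolynomial.aeval_C, e, Fin.rev_rev,
      MvPolynomial.algebraMap_eq, ← mul_assoc, ← MvPolynomial.C_mul, ← mul_pow]
    simp
  have := congrArg (fun f => f D) h
  simpa using this

theorem eval_sg {g : ℕ} (b y : Fin g → ℝ) (h : RootsOf b y) (D : MvPolynomial (Fin g) ℝ) :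
    MvPolynomial.eval b (sg g D) =
      MvPolynomial.eval y (MvPolynomial.aeval
        (fun i : Fin g => MvPolynomial.esymm (Fin g) ℝ ((i : ℕ) + 1)) D) := by
  have h1 : (MvPolynomial.aeval b : MvPolynomial (Fin g) ℝ →ₐ[ℝ] ℝ).comp (sg g) =
      (MvPolynomial.aeval y : MvPolynomial (Fin g) ℝ →ₐ[ℝ] ℝ).comp (MvPolynomial.aeval
        (fun i : Fin g => MvPolynomial.esymm (Fin g) ℝ ((i : ℕ) + 1))) := by
    apply MvPolynomial.algHom_ext
    intro k
    have hk := k.2
    have e : g - ((Fin.rev k : Fin g) : ℕ) = (k : ℕ) + 1 := by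
      rw [Fin.val_rev]
      omega
    rw [AlgHom.comp_apply, AlgHom.comp_apply]
    unfold sg
    rw [MvPolynomial.aeval_X, MvPolynomial.aeval_X, map_mul, MvPolynomial.aeval_X,
      MvPolynomial.aeval_C, vieta b y h (Fin.rev k), e, ← mul_assoc]
    rw [← MvPolynomial.coe_aeval_eq_eval, RingHom.coe_coe]
    have e2 : (algebraMap ℝ ℝ) ((-1 : ℝ) ^ ((k : ℕ) + 1)) * (-1) ^ ((k : ℕ) + 1) = 1 := by
      rw [Algebra.algebraMap_self_apply, ← mul_pow]
      simp
    rw [e2, one_mul]
  have := congrArg (fun f => f D) h1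
  simpa [MvPolynomial.coe_aeval_eq_eval] using this

end SYM

theorem t_SYM : S_SYM := by
  intro g F hF hF0
  obtain ⟨D', hD'⟩ := (MvPolynomial.esymmAlgHom_fin_bijective ℝ g).2 ⟨F, hF⟩
  have hD2 : MvPolynomial.aeval
      (fun i : Fin g => MvPolynomial.esymm (Fin g) ℝ ((i : ℕ) + 1)) D' = F := by
    have := congrArg Subtype.val hD'
    rw [MvPolynomial.esymmAlgHom_apply] at this
    exact this
  refine ⟨SYM.sg g D', ?_, ?_⟩
  · intro h
    have h2 := SYM.tu_sg g D'
    rw [h, map_zero] at h2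
    rw [← h2, map_zero] at hD2
    exact hF0 hD2.symm
  · intro b y h
    rw [SYM.eval_sg b y h D', hD2]

end Pool.Agent.H18W
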