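import Mathlib

/-!
# Project WF (helper18), MP_09799c_ag: one Frobenius polynomial, almost all Weil polynomials

Goal: there are `c, C > 0` such that for all `q ≥ 1` there are at least `c q^(g(g+1)/4)` `q`-Weil polynomials of
degree `2 g`, and all but at most `C q^(g(g+1)/4 - 1/2)` of them have the following property: if a complex abelian
variety `X` has a simple factor `Y` with `End Y = ℤ`, `dim Y = g`, and one element of the Galois group acts on the
Tate module of `Y` with this characteristic polynomial, then (helper43, `OneFactorIsolatedPair`) the point of `X` is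
not `ℓ`-Galois special (for all `ℓ`).

`q`-Weil polynomials of degree `2 g`: `X^g R (X + q / X)`, where `R` is a monic integral polynomial of degree `g`
with `g` real roots in `[-2 √q, 2 √q]`. With the roots `x i = √q y i` everything is reduced to `q = 1`.

Every piece `P` is a theorem `t_P : S_P` (with hypotheses `h1 : S_Q` for the pieces which are used, as said in the
docstring) in the file `Pool/Agent/H18W/P.lean`, namespace `Pool.Agent.H18W`, auxiliary lemmas in the namespace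
`Pool.Agent.H18W.P`.
-/

set_option autoImplicit false

noncomputable section

namespace Pool.Agent.H18W

open Polynomial Finset

/-- the monic polynomial of degree `g` with the lower coefficients `b` -/
def rp {g : ℕ} (b : Fin g → ℝ) : ℝ[X] := X ^ g + ∑ j : Fin g, C (b j) * X ^ (j : ℕ)

/-- the roots of the polynomial with the coefficients `b` are the numbers `y i` -/
def RootsOf {g : ℕ} (b y : Fin g → ℝ) : Prop := rp b = ∏ i, (X - C (y i))

/-- all roots of the monic integral polynomial with the coefficients `a` are real, of absolute value at most `2 √q` -/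
def IsRW {g : ℕ} (q : ℕ) (a : Fin g → ℤ) : Prop :=
  ∃ x : Fin g → ℝ, (∀ i, x i ^ 2 ≤ 4 * q) ∧ RootsOf (fun j => (a j : ℝ)) x

/-- `X^g R (X + q / X)`, where `R` is the monic polynomial with the coefficients `a` -/
def wp {g : ℕ} (q : ℕ) (a : Fin g → ℤ) : ℤ[X] :=
  (X ^ 2 + C (q : ℤ)) ^ g + ∑ j : Fin g, C (a j) * (X ^ (g - (j : ℕ)) * (X ^ 2 + C (q : ℤ)) ^ (j : ℕ))

/-- `x i x j` -/
def bb {g : ℕ} (y : Fin g → ℝ) (i j : Fin g) : ℝ := y i * y j

/-- `x i ^ 2 + x j ^ 2 - 4` -/
def cc {g : ℕ} (y : Fin g → ℝ) (i j : Fin g) : ℝ := y i ^ 2 + y j ^ 2 - 4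

/-- the resultant of `t ^ 2 - bb i j t + cc i j` and `t ^ 2 - bb k l t + cc k l` -/
def rs {g : ℕ} (y : Fin g → ℝ) (i j k l : Fin g) : ℝ :=
  (cc y i j - cc y k l) ^ 2 + (bb y i j - bb y k l) * (bb y i j * cc y k l - bb y k l * cc y i j)

/-- the vector `y` (the traces of a Weil polynomial divided by `√q`) is good -/
structure Good {g : ℕ} (y : Fin g → ℝ) : Prop where
  one : ∀ i, y i ≠ 0 ∧ y i ^ 2 ≠ 4
  two : ∀ i j, i ≠ j → y i ^ 2 ≠ y j ^ 2
  four : ∀ i j k l, k ≠ l → s(i, j) ≠ s(k, l) → rs y i j k l ≠ 0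

/-- (REL, 110 lines) only trivial relations between two eigenvalues. Paper proof. Let `u = (i, _)`, `v = (j, _)`,
`w = (k, _)`, `z = (l, _)` and `β u β v = β w β z =: p`. Then `t = p + 1 / p` is a root of
`t ^ 2 - bb i j t + cc i j` (whose roots are `β u β v + 1 / (β u β v)` and `β u / β v + β v / β u`, since
`β (i, false) = 1 / β (i, true)`) and of `t ^ 2 - bb k l t + cc k l`, so `rs y i j k l = 0` and `rs y k l i j = 0` (real
numbers seen as complex numbers). By `four` (used for `(i, j, k, l)` and for `(k, l, i, j)`) `s(i, j) = s(k, l)`, or `i = j`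
and `k = l`. In the case `i = j`, `k = l`, `i ≠ k`: `β u β v` is `1` or `(β u) ^ 2` with `(β u) ^ 2 + 1 / (β u) ^ 2 = y i ^ 2 - 2`;
by `one` (`(β u) ^ 2 ≠ 1` since `y i ^ 2 ≠ 4`) and `two` the only possibility is that both products are `1`, that is,
`v` is the conjugate of `u` and `z` of `w`, where the function is `0` on both sides. In the case `s(i, j) = s(k, l)` (by
symmetry `i = k`, `j = l`): if `u = w` then `v = z`. If `w` is the conjugate of `u`: `z = v` would give
`(β u) ^ 2 = 1`; if `z` is the conjugate of `v` then `(β u β v) ^ 2 = 1`, so `β v = ± 1 / β u`, `y j = ± y i`, so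
`i = j` by `two`, and `v = u` gives `(β u) ^ 4 = 1`, i.e. `y i = 0` or `y i ^ 2 = 4`; and `v` conjugate to `u` is fine: then
both products are `1`, and all is trivial. The function `h` below satisfies `h (i, true) + h (i, false) = 0`. -/
def S_REL : Prop := ∀ (g : ℕ) (y : Fin g → ℝ), Good y → ∀ β : Fin g × Bool → ℂ,
  (∀ i, β (i, true) * β (i, false) = 1) → (∀ i, β (i, true) + β (i, false) = (y i : ℂ)) →
  ∀ i₀ : Fin g, ∀ h : Fin g × Bool → ℤ,
    (∀ u, h u = if u = (i₀, true) then 1 else if u = (i₀, false) then -1 else 0) →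
    ∀ u v w z, β u * β v = β w * β z → h u + h v = h w + h z

/-- (DIS, 40 lines) the eigenvalues are different. If `β u = β v`, `u = (i, _)`, `v = (j, _)`, then
`y i = β u + 1 / β u = y j`, so `i = j` by `two`, and `β (i, true) = β (i, false)` would give `β ^ 2 = 1`, `y i ^ 2 = 4`. -/
def S_DIS : Prop := ∀ (g : ℕ) (y : Fin g → ℝ), Good y → ∀ β : Fin g × Bool → ℂ,
  (∀ i, β (i, true) * β (i, false) = 1) → (∀ i, β (i, true) + β (i, false) = (y i : ℂ)) →
  Function.Injective β

/-- the polynomial of the bad vectors -/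
def ff (g : ℕ) : MvPolynomial (Fin g) ℝ :=
  (∏ i, (MvPolynomial.X i * (MvPolynomial.X i ^ 2 - 4))) *
  (∏ p : Fin g × Fin g, if p.1 ≠ p.2 then MvPolynomial.X p.1 ^ 2 - MvPolynomial.X p.2 ^ 2 else 1) *
  ∏ p : (Fin g × Fin g) × (Fin g × Fin g), if p.2.1 ≠ p.2.2 ∧ s(p.1.1, p.1.2) ≠ s(p.2.1, p.2.2) then
    ((MvPolynomial.X p.1.1 ^ 2 + MvPolynomial.X p.1.2 ^ 2 - MvPolynomial.X p.2.1 ^ 2 - MvPolynomial.X p.2.2 ^ 2) ^ 2 +
      (MvPolynomial.X p.1.1 * MvPolynomial.X p.1.2 - MvPolynomial.X p.2.1 * MvPolynomial.X p.2.2) *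
      (MvPolynomial.X p.1.1 * MvPolynomial.X p.1.2 * (MvPolynomial.X p.2.1 ^ 2 + MvPolynomial.X p.2.2 ^ 2 - 4) -
        MvPolynomial.X p.2.1 * MvPolynomial.X p.2.2 * (MvPolynomial.X p.1.1 ^ 2 + MvPolynomial.X p.1.2 ^ 2 - 4))) else 1

/-- (FGD, 50 lines) `ff g` is not zero at `y` only if `y` is good: `eval` of the products, `Finset.prod_ne_zero_iff`. -/
def S_FGD : Prop := ∀ (g : ℕ) (y : Fin g → ℝ), MvPolynomial.eval y (ff g) ≠ 0 → Good y

/-- (FNZ, 70 lines) `ff g ≠ 0`: every factor is not zero (`MvPolynomial` over `ℝ` is a domain), since it has a value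
different from zero: for `X i (X i ^ 2 - 4)` take `y i = 1`; for `X i ^ 2 - X j ^ 2` take `y i = 1`, `y j = 0`; for the last
kind, `s(i, j) ≠ s(k, l)`, `k ≠ l`: there is `m ∈ {k, l}` with `m ≠ i`, `m ≠ j`; take `y m = 1` and `y = 0` elsewhere; then
`y k * y l = 0`, `y i * y j = 0` and `y k ^ 2 + y l ^ 2 = 1`, `y i ^ 2 + y j ^ 2 = 0`, the value is `1`. -/
def S_FNZ : Prop := ∀ g : ℕ, ff g ≠ 0

/-- (FSY, 40 lines) `ff g` is symmetric (`MvPolynomial.rename` permutes the factors: `Fintype.prod_equiv`). -/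
def S_FSY : Prop := ∀ g : ℕ, (ff g).IsSymmetric

/-- (SYM, 110 lines) a symmetric polynomial of the roots is a polynomial in the coefficients. By
`MvPolynomial.esymmAlgHom_fin_bijective` (or `esymmAlgEquiv`) `F = aeval (esymm 1, .., esymm g) D'`, `D' ≠ 0`. By Vieta
(`Multiset.prod_X_sub_C_coeff` or `Finset`-versions) `b j = (-1)^(g - j) esymm (g - j) (y)`; so
`D = D' (with the variable number k, which stands for esymm (k+1), replaced by (-1)^(k+1) X_(g - 1 - k))`, i.e.
`D = aeval (fun k => C ((-1)^(k+1)) * X (Fin.rev k)) D'`. `D ≠ 0` because this substitution has an inverse. -/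
def S_SYM : Prop := ∀ (g : ℕ) (F : MvPolynomial (Fin g) ℝ), F.IsSymmetric → F ≠ 0 →
  ∃ D : MvPolynomial (Fin g) ℝ, D ≠ 0 ∧ ∀ b y : Fin g → ℝ, RootsOf b y →
    MvPolynomial.eval b D = MvPolynomial.eval y F

/-- (SZL, 60 lines) zeros of a polynomial in a grid: `MvPolynomial.schwartz_zippel_sum_degreeOf` (or
`schwartz_zippel_sup_sum`). For `g = 0` the set is empty. -/
def S_SZL : Prop := ∀ (g : ℕ) (D : MvPolynomial (Fin g) ℝ), D ≠ 0 → ∃ C : ℝ, 0 < C ∧
  ∀ (S : Fin g → Finset ℝ) (m : ℝ), 0 < m → (∀ j, m ≤ (S j).card) →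
    (((Fintype.piFinset S).filter (fun b => MvPolynomial.eval b D = 0)).card : ℝ) ≤
      C / m * ∏ j, ((S j).card : ℝ)

/-- (UPB, 60 lines) the coefficients of a polynomial with small roots: `|b j| ≤ 3 ^ g` if all `|y i| ≤ 2`
(`∏ (1 + 2) = 3 ^ g` bounds the sum of the absolute values of the coefficients, by induction on the number of
factors; or Vieta). -/
def S_UPB : Prop := ∀ (g : ℕ) (b y : Fin g → ℝ), RootsOf b y → (∀ i, |y i| ≤ 2) → ∀ j, |b j| ≤ 3 ^ g

/-- (SCL, 40 lines) scaling of the roots: compare `rp` composed with `C s * X` (`comp`), `s ^ g` times. -/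
def S_SCL : Prop := ∀ (g : ℕ) (b y : Fin g → ℝ) (s : ℝ), 0 < s →
  (RootsOf b y ↔ RootsOf (fun j => s ^ (g - (j : ℕ)) * b j) (fun i => s * y i))

/-- (BAD, 110 lines) the number of the bad vectors. `theorem t_BAD (h1 : S_SZL) (h2 : S_UPB) (h3 : S_SCL) : S_BAD`.
If `a` is as in the statement, `y = x / √q`, then `b j = a j / √q ^ (g - j)` has the roots `y` (SCL), `|b j| ≤ 3 ^ g`
(UPB), so `a j` is in the interval `|a j| ≤ 3 ^ g √q ^ (g - j)`, and `eval b D = 0`. With the grid
`S j = {a / √q ^ (g - j)}` of these numbers, `√q ≤ |S j| ≤ 3 ^ (g + 1) √q ^ (g - j)` (`g - j ≥ 1`), SZL with `m = √q` bounds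
the number by `C / √q ∏ 3 ^ (g + 1) √q ^ (g - j) = C' q ^ (g (g + 1) / 4 - 1 / 2)`. (`g ≥ 1`.) -/
def S_BAD : Prop := ∀ (g : ℕ) (D : MvPolynomial (Fin g) ℝ), 1 ≤ g → D ≠ 0 → ∃ C : ℝ, 0 < C ∧ ∀ q : ℕ, 1 ≤ q →
  ∃ B : Finset (Fin g → ℤ), (B.card : ℝ) ≤ C * (q : ℝ) ^ ((g : ℝ) * (g + 1) / 4 - 1 / 2) ∧
    ∀ (a : Fin g → ℤ) (x : Fin g → ℝ), (∀ i, x i ^ 2 ≤ 4 * q) → RootsOf (fun j => (a j : ℝ)) x →
      MvPolynomial.eval (fun j => (a j : ℝ) / Real.sqrt q ^ (g - (j : ℕ))) D = 0 → a ∈ B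

/-- (PER, 110 lines) an open set of polynomials with real roots. Let `b₀` be the coefficients of `∏ (X - y₀ i)`,
`y₀ i = 2 (i + 1) / (g + 1) - 1 ∈ (-1, 1)`. At the `g + 1` points `t_m` between the roots (`-2`, the midpoints, `2`) this
polynomial has alternating signs, and this remains true for small changes of the coefficients, so a monic polynomial of
degree `g` with coefficients near `b₀` has `g` different roots in `[-2, 2]`, one in each interval, and is the product. -/
def S_PER : Prop := ∀ g : ℕ, ∃ (b₀ : Fin g → ℝ) (ε : ℝ), 0 < ε ∧ ∀ b : Fin g → ℝ, (∀ j, |b j - b₀ j| ≤ ε) →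
  ∃ y : Fin g → ℝ, (∀ i, |y i| ≤ 2) ∧ RootsOf b y

/-- (CNT, 110 lines) the number of the Weil polynomials. `theorem t_CNT (h1 : S_PER) (h2 : S_SCL) : S_CNT`. All integral
vectors `a` with `|a j - √q ^ (g - j) b₀ j| ≤ ε √q ^ (g - j)` are in the set (SCL with `s = √q`); for `ε √q ≥ 1` the
interval contains at least `ε √q ^ (g - j)` integers, and the product is `ε ^ g q ^ (g (g + 1) / 4)`. For the other
`q` (`q ≤ ε ^ -2`) use `B = {0}` (all roots are zero), with `c ≤ ε ^ (g (g + 1))`. -/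
def S_CNT : Prop := ∀ g : ℕ, ∃ c : ℝ, 0 < c ∧ ∀ q : ℕ, 1 ≤ q → ∃ B : Finset (Fin g → ℤ),
  c * (q : ℝ) ^ ((g : ℝ) * (g + 1) / 4) ≤ (B.card : ℝ) ∧ ∀ a ∈ B, IsRW q a

/-- (WPF, 60 lines) the factors of the Weil polynomial. Both sides are polynomials, and for real `t ≠ 0` the values are
`t ^ g R (t + q / t)` and `∏ t (t + q / t - x i)` (`Polynomial.funext` or `eq_of_infinite_eval_eq`). -/
def S_WPF : Prop := ∀ (g q : ℕ) (a : Fin g → ℤ) (x : Fin g → ℝ), RootsOf (fun j => (a j : ℝ)) x →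
  (wp q a).map (Int.castRingHom ℝ) = ∏ i, (X ^ 2 - C (x i) * X + C (q : ℝ))

/-- (WPI, 40 lines) `wp q` is injective (`q` fixed): for `t ≠ 0` real, `t ^ g (R_a - R_a') (t + q / t) = 0`; `t + q / t` takes
infinitely many values. -/
def S_WPI : Prop := ∀ (g q : ℕ), Function.Injective (fun a : Fin g → ℤ => wp q a)

/-- (EIG, 110 lines) an operator with this characteristic polynomial has an eigenbasis. Let `β (i, true)`, `β (i, false)` be
the roots of `X ^ 2 - y i X + 1` over `ℂ`, `y i = x i / √q`, and `α u = √q β u`; these are the roots of the characteristic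
polynomial `∏ (X ^ 2 - x i X + q) = ∏ u (X - α u)`. As `α` is injective (hypothesis `hd`, DIS), the eigenvectors are
linearly independent and, as the dimension is `2 g`, they form a basis. -/
def S_EIG : Prop := ∀ (g q : ℕ) (x : Fin g → ℝ) (V : Type) [AddCommGroup V] [Module ℂ V] [FiniteDimensional ℂ V]
  (t : Module.End ℂ V), 1 ≤ q →
  t.charpoly = ∏ i, (X ^ 2 - C (x i : ℂ) * X + C (q : ℂ)) →
  (∀ β : Fin g × Bool → ℂ, (∀ i, β (i, true) * β (i, false) = 1) →
    (∀ i, β (i, true) + β (i, false) = ((x i / Real.sqrt q : ℝ) : ℂ)) → Function.Injective β) →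
  ∃ (β : Fin g × Bool → ℂ) (w : Module.Basis (Fin g × Bool) ℂ V), (∀ i, β (i, true) * β (i, false) = 1) ∧
    (∀ i, β (i, true) + β (i, false) = ((x i / Real.sqrt q : ℝ) : ℂ)) ∧
    ∀ u, t (w u) = ((Real.sqrt q : ℂ) * β u) • w u

end Pool.Agent.H18W
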