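import Mathlib
import Pool.Agent.H18W.Stm

/-!
Project WF, piece SZL: the zeros of a polynomial in a grid (Schwartz-Zippel).
-/

set_option autoImplicit false

noncomputable section

namespace Pool.Agent.H18W

open Polynomial Finset

theorem t_SZL : S_SZL := by
  intro g D hD
  refine ⟨1 + ∑ j : Fin g, (D.degreeOf j : ℝ), by positivity, ?_⟩
  intro S m hm hS
  have h0 := MvPolynomial.schwartz_zippel_sum_degreeOf hD S
  have h1 : ((((Fintype.piFinset S).filter (fun b => MvPolynomial.eval b D = 0)).card : ℝ)) /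
      ∏ j, ((S j).card : ℝ) ≤ ∑ j : Fin g, (D.degreeOf j : ℝ) / ((S j).card : ℝ) := by
    have h2 : (((((Fintype.piFinset S).filter (fun b => MvPolynomial.eval b D = 0)).card : ℚ≥0)) /
      ∏ j, ((S j).card : ℚ≥0) : ℚ≥0) ≤ ∑ j : Fin g, (D.degreeOf j : ℚ≥0) / ((S j).card : ℚ≥0) := by
      convert h0
    have h3 := (NNRat.cast_le (K := ℝ)).2 h2
    push_cast at h3
    exact h3
  have hpos : ∀ j, (0 : ℝ) < ((S j).card : ℝ) := fun j => lt_of_lt_of_le hm (hS j)
  have hP : (0 : ℝ) < ∏ j, ((S j).card : ℝ) := Finset.prod_pos fun j _ => hpos j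
  have h4 : ∑ j : Fin g, (D.degreeOf j : ℝ) / ((S j).card : ℝ) ≤
      (1 + ∑ j : Fin g, (D.degreeOf j : ℝ)) / m := by
    have h5 : ∑ j : Fin g, (D.degreeOf j : ℝ) / ((S j).card : ℝ) ≤
        ∑ j : Fin g, (D.degreeOf j : ℝ) / m :=
      Finset.sum_le_sum fun j _ => div_le_div_of_nonneg_left (Nat.cast_nonneg _) hm (hS j)
    rw [← Finset.sum_div] at h5
    refine h5.trans ?_
    gcongr
    linarith
  have h6 := (div_le_iff₀ hP).1 (h1.trans h4)
  exact h6

end Pool.Agent.H18W
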