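import Pool.Agent.H18W.SYM

set_option autoImplicit false

namespace Pool.Agent.H18W

open Polynomial Finset

namespace UPB

theorem coeff_le {g : ℕ} (y : Fin g → ℝ) (hy : ∀ i, |y i| ≤ 2) (s : Finset (Fin g)) :
    ∀ j : ℕ, |(∏ i ∈ s, (X - C (y i))).coeff j| ≤ 3 ^ s.card := by
  classical
  induction s using Finset.induction_on with
  | empty =>
    intro j
    rw [Finset.prod_empty, Finset.card_empty, pow_zero, coeff_one]
    split_ifs <;> simp
  | insert a s ha ih =>
    intro j
    rw [Finset.prod_insert ha, Finset.card_insert_of_notMem ha, sub_mul, coeff_sub, coeff_C_mul]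
    have h1 : |(X * ∏ i ∈ s, (X - C (y i))).coeff j| ≤ 3 ^ s.card := by
      cases j with
      | zero => rw [coeff_X_mul_zero, abs_zero]; positivity
      | succ j => rw [coeff_X_mul]; exact ih j
    have h2 : |y a * (∏ i ∈ s, (X - C (y i))).coeff j| ≤ 2 * 3 ^ s.card := by
      rw [abs_mul]
      exact mul_le_mul (hy a) (ih j) (abs_nonneg _) (by norm_num)
    calc _ ≤ |(X * ∏ i ∈ s, (X - C (y i))).coeff j| + |y a * (∏ i ∈ s, (X - C (y i))).coeff j| := abs_sub _ _
      _ ≤ 3 ^ s.card + 2 * 3 ^ s.card := add_le_add h1 h2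
      _ = 3 ^ (s.card + 1) := by ring

end UPB

theorem t_UPB : S_UPB := by
  intro g b y h hy j
  have h1 := UPB.coeff_le y hy Finset.univ (j : ℕ)
  rw [Finset.card_univ, Fintype.card_fin] at h1
  unfold RootsOf at h
  rw [← h, SYM.coeff_rp] at h1
  exact h1

end Pool.Agent.H18W
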