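import Pool.Agent.H18W.Stm

set_option autoImplicit false

/-!
Project WF (helper18), piece WPF (by helper39): the factors of the Weil polynomial.
-/

noncomputable section

namespace Pool.Agent.H18W

open Polynomial Finset

theorem t_WPF : S_WPF := by
  intro g q a x h
  apply Polynomial.eq_of_infinite_eval_eq
  refine Set.Infinite.mono ?_ (Set.finite_singleton (0 : ℝ)).infinite_compl
  intro t ht
  have ht0 : t ≠ 0 := ht
  show eval t ((wp q a).map (Int.castRingHom ℝ)) =
    eval t (∏ i, (X ^ 2 - C (x i) * X + C (q : ℝ)))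
  obtain ⟨w, hw⟩ : ∃ w : ℝ, w = (t ^ 2 + q) / t := ⟨_, rfl⟩
  have hw' : t ^ 2 + (q : ℝ) = t * w := by
    rw [hw]
    field_simp
  have h1 : w ^ g + ∑ j : Fin g, (a j : ℝ) * w ^ (j : ℕ) = ∏ i, (w - x i) := by
    have h2 := congrArg (eval w) h
    unfold rp at h2
    simpa only [eval_add, eval_pow, eval_X, eval_finset_sum, eval_prod, eval_mul, eval_C,
      eval_sub] using h2
  have h3 : eval t ((wp q a).map (Int.castRingHom ℝ)) =
      (t ^ 2 + (q : ℝ)) ^ g +
        ∑ j : Fin g, (a j : ℝ) * (t ^ (g - (j : ℕ)) * (t ^ 2 + (q : ℝ)) ^ (j : ℕ)) := by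
    unfold wp
    simp only [Polynomial.map_add, Polynomial.map_pow, Polynomial.map_X, Polynomial.map_C,
      Polynomial.map_sum, Polynomial.map_mul, eval_add, eval_pow, eval_X, eval_finset_sum,
      eval_mul, eval_C, Int.coe_castRingHom, Int.cast_natCast]
  have h4 : eval t (∏ i, (X ^ 2 - C (x i) * X + C (q : ℝ))) = ∏ i, (t * (w - x i)) := by
    rw [eval_prod]
    refine Finset.prod_congr rfl fun i _ => ?_
    simp only [eval_add, eval_sub, eval_pow, eval_X, eval_mul, eval_C]
    linear_combination hw'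
  rw [h3, h4, Finset.prod_mul_distrib, ← h1, hw']
  simp only [Finset.prod_const, Finset.card_univ, Fintype.card_fin]
  rw [mul_add, Finset.mul_sum, mul_pow]
  refine congrArg₂ (· + ·) rfl (Finset.sum_congr rfl fun j _ => ?_)
  have hj : t ^ g = t ^ (g - (j : ℕ)) * t ^ (j : ℕ) := by
    rw [← pow_add, Nat.sub_add_cancel j.2.le]
  rw [hj, mul_pow]
  ring

end Pool.Agent.H18W
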