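import Pool.Agent.H18W.Stm

/-!
Piece WPI of project WF (helper45).
-/

set_option autoImplicit false

namespace Pool.Agent.H18W

open Polynomial Finset

theorem wpi_monic (n q j : ℕ) : (X ^ n * (X ^ 2 + C (q : ℤ)) ^ j : ℤ[X]).Monic ∧
    (X ^ n * (X ^ 2 + C (q : ℤ)) ^ j : ℤ[X]).natDegree = n + 2 * j := by
  have h1 : (X ^ 2 + C (q : ℤ) : ℤ[X]).Monic := monic_X_pow_add_C _ (by norm_num)
  have h2 : (X ^ 2 + C (q : ℤ) : ℤ[X]).natDegree = 2 := natDegree_X_pow_add_C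
  refine ⟨(monic_X_pow n).mul (h1.pow j), ?_⟩
  rw [(monic_X_pow n).natDegree_mul (h1.pow j), h1.natDegree_pow, natDegree_X_pow, h2, mul_comm]

theorem t_WPI : S_WPI := by
  intro g q a a' h
  have h0 : ∑ j : Fin g, C (a j - a' j) * (X ^ (g - (j : ℕ)) * (X ^ 2 + C (q : ℤ)) ^ (j : ℕ)) = 0 := by
    have h1 : wp q a = wp q a' := h
    unfold wp at h1
    have h2 := add_left_cancel h1
    rw [← sub_eq_zero, ← Finset.sum_sub_distrib] at h2
    rw [← h2]
    refine Finset.sum_congr rfl (fun j _ => ?_)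
    rw [C_sub, sub_mul]
  by_contra hne
  have hex : ∃ j, a j - a' j ≠ 0 := by
    by_contra hcon
    push Not at hcon
    exact hne (funext fun j => sub_eq_zero.1 (hcon j))
  obtain ⟨j0, hj0⟩ := hex
  obtain ⟨j1, hj1, hmax⟩ := Finset.exists_max_image (Finset.univ.filter (fun j : Fin g => a j - a' j ≠ 0))
    (fun j => (j : ℕ)) ⟨j0, Finset.mem_filter.2 ⟨Finset.mem_univ _, hj0⟩⟩
  have hj1' := (Finset.mem_filter.1 hj1).2
  have h3 := congrArg (fun p : ℤ[X] => p.coeff (g + (j1 : ℕ))) h0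
  simp only [finset_sum_coeff, coeff_C_mul, coeff_zero] at h3
  rw [Finset.sum_eq_single j1] at h3
  · have hm := wpi_monic (g - (j1 : ℕ)) q (j1 : ℕ)
    have hdeg : (X ^ (g - (j1 : ℕ)) * (X ^ 2 + C (q : ℤ)) ^ (j1 : ℕ) : ℤ[X]).natDegree = g + (j1 : ℕ) := by
      rw [hm.2]
      have := j1.2
      omega
    have hc := hm.1.coeff_natDegree
    rw [hdeg] at hc
    rw [hc, mul_one] at h3
    exact hj1' h3
  · intro j _ hjne
    by_cases hj : a j - a' j = 0
    · rw [hj, zero_mul]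
    · have hle : (j : ℕ) ≤ (j1 : ℕ) := hmax j (Finset.mem_filter.2 ⟨Finset.mem_univ _, hj⟩)
      have hlt : (j : ℕ) < (j1 : ℕ) := lt_of_le_of_ne hle (fun e => hjne (Fin.ext e))
      have hm := wpi_monic (g - (j : ℕ)) q (j : ℕ)
      rw [coeff_eq_zero_of_natDegree_lt, mul_zero]
      rw [hm.2]
      have := j.2
      omega
  · intro hn
    exact absurd (Finset.mem_univ _) hn

end Pool.Agent.H18W
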