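import Pool.Agent.H18W.Asm
import Pool.Agent.H18W.REL
import Pool.Agent.H18W.DIS
import Pool.Agent.H18W.FGD
import Pool.Agent.H18W.FNZ
import Pool.Agent.H18W.FSY
import Pool.Agent.H18W.SYM
import Pool.Agent.H18W.SZL
import Pool.Agent.H18W.UPB
import Pool.Agent.H18W.SCL
import Pool.Agent.H18W.BAD
import Pool.Agent.H18W.PER
import Pool.Agent.H18W.CNT
import Pool.Agent.H18W.WPF
import Pool.Agent.H18W.WPI
import Pool.Agent.H18W.EIG

/-!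
# Project WF (helper18): all pieces together
-/

set_option autoImplicit false

namespace Pool.Agent.H18W

open Polynomial

theorem count (g : ℕ) (hg : 1 ≤ g) :
    ∃ c C : ℝ, 0 < c ∧ 0 < C ∧ ∀ q : ℕ, 1 ≤ q →
      {P : ℤ[X] | IsWeil g q P}.Finite ∧
      c * (q : ℝ) ^ ((g : ℝ) * (g + 1) / 4) ≤ ({P : ℤ[X] | IsWeil g q P}.ncard : ℝ) ∧
      ∃ Bad : Finset ℤ[X], (Bad.card : ℝ) ≤ C * (q : ℝ) ^ ((g : ℝ) * (g + 1) / 4 - 1 / 2) ∧
        ∀ (a : Fin g → ℤ) (x : Fin g → ℝ), (∀ i, x i ^ 2 ≤ 4 * q) → RootsOf (fun j => (a j : ℝ)) x →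
          wp q a ∉ Bad → Good (fun i => x i / Real.sqrt q) :=
  Asm.count t_FGD t_FNZ t_FSY t_SYM t_UPB t_SCL (t_BAD t_SZL t_UPB t_SCL) (t_CNT t_PER t_SCL) t_WPI g hg

theorem isolated (g q : ℕ) (hg : 1 ≤ g) (hq : 1 ≤ q)
    (x : Fin g → ℝ) (hx : Good (fun i => x i / Real.sqrt q)) (V : Type) [AddCommGroup V] [Module ℂ V]
    [FiniteDimensional ℂ V] (t : Module.End ℂ V)
    (ht : t.charpoly = ∏ i, (X ^ 2 - C (x i : ℂ) * X + C (q : ℂ))) :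
    ∃ (n : ℕ) (w : Module.Basis (Fin n) ℂ V) (α : Fin n → ℂˣ) (i₀ i₁ : Fin n), i₀ ≠ i₁ ∧
      (∀ i, t (w i) = (α i : ℂ) • w i) ∧ ∀ h : Fin n → ℤ,
        (∀ i, h i = if i = i₀ then 1 else if i = i₁ then -1 else 0) →
        ∀ i j k l, α i * α j = α k * α l → h i + h j = h k + h l :=
  Asm.isolated t_REL t_DIS t_EIG g q hg hq x hx V t ht

end Pool.Agent.H18W
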