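import Pool.Agent.H18W.Stm

/-!
# Project WF (helper18): assembly
-/

set_option autoImplicit false

noncomputable section

namespace Pool.Agent.H18W

open Polynomial Finset

/-- `P = X ^ g R (X + q / X)`, where `R` is a monic integral polynomial of degree `g`, all of whose complex
roots are real, of absolute value at most `2 √q`. -/
def IsWeil (g q : ℕ) (P : ℤ[X]) : Prop := ∃ a : Fin g → ℤ, IsRW q a ∧ P = wp q a

namespace Asm

theorem scaled (h3 : S_SCL) {g q : ℕ} (hq : 1 ≤ q) {a : Fin g → ℤ} {x : Fin g → ℝ}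
    (hx : RootsOf (fun j => (a j : ℝ)) x) :
    RootsOf (fun j => (a j : ℝ) / Real.sqrt q ^ (g - (j : ℕ))) (fun i => x i / Real.sqrt q) := by
  have hs : (0 : ℝ) < Real.sqrt q := Real.sqrt_pos.2 (by exact_mod_cast hq)
  rw [h3 g _ _ (Real.sqrt q) hs]
  have e1 : (fun j : Fin g => Real.sqrt q ^ (g - (j : ℕ)) * ((a j : ℝ) / Real.sqrt q ^ (g - (j : ℕ)))) =
      fun j => (a j : ℝ) := by
    funext j
    field_simp
  have e2 : (fun i => Real.sqrt q * (x i / Real.sqrt q)) = x := by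
    funext i
    field_simp
  rw [e1, e2]
  exact hx

theorem abs_two (q : ℕ) (hq : 1 ≤ q) (z : ℝ) (hz : z ^ 2 ≤ 4 * q) : |z / Real.sqrt q| ≤ 2 := by
  have hs : (0 : ℝ) < Real.sqrt q := Real.sqrt_pos.2 (by exact_mod_cast hq)
  rw [← sq_le_sq₀ (abs_nonneg _) (by norm_num), sq_abs, div_pow, Real.sq_sqrt (by positivity),
    div_le_iff₀ (by exact_mod_cast hq)]
  linarith

/-- the Weil polynomials are finite in number -/
theorem fin (h2 : S_UPB) (h3 : S_SCL) (g q : ℕ) (hq : 1 ≤ q) : {P : ℤ[X] | IsWeil g q P}.Finite := by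
  have hs : (0 : ℝ) < Real.sqrt q := Real.sqrt_pos.2 (by exact_mod_cast hq)
  have hfin : {a : Fin g → ℤ | IsRW q a}.Finite := by
    set M : ℤ := ⌈(3 : ℝ) ^ g * (Real.sqrt q + 1) ^ g⌉ with hM
    refine (Fintype.piFinset fun _ : Fin g => Finset.Icc (-M) M).finite_toSet.subset ?_
    rintro a ⟨x, hx, hr⟩
    rw [Finset.mem_coe, Fintype.mem_piFinset]
    intro j
    have h4 := h2 g _ _ (scaled h3 hq hr) (fun i => abs_two q hq _ (hx i)) j
    have h5 : |(a j : ℝ)| ≤ (3 : ℝ) ^ g * (Real.sqrt q + 1) ^ g := by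
      have h6 : (0 : ℝ) < Real.sqrt q ^ (g - (j : ℕ)) := by positivity
      rw [abs_div, abs_of_pos h6, div_le_iff₀ h6] at h4
      refine h4.trans (mul_le_mul_of_nonneg_left ?_ (by positivity))
      calc Real.sqrt q ^ (g - (j : ℕ)) ≤ (Real.sqrt q + 1) ^ (g - (j : ℕ)) :=
            pow_le_pow_left₀ hs.le (by linarith) _
        _ ≤ (Real.sqrt q + 1) ^ g := pow_le_pow_right₀ (by linarith) (Nat.sub_le _ _)
    have h7 : (|a j| : ℤ) ≤ M := by
      have h8 : ((|a j| : ℤ) : ℝ) ≤ ((M : ℤ) : ℝ) := by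
        rw [Int.cast_abs]
        exact h5.trans (Int.le_ceil _)
      exact_mod_cast h8
    rw [Finset.mem_Icc]
    exact abs_le.1 h7
  refine (hfin.image (fun a => wp q a)).subset ?_
  rintro P ⟨a, ha, rfl⟩
  exact ⟨a, ha, rfl⟩

/-- the counting theorem -/
theorem count (hFGD : S_FGD) (hFNZ : S_FNZ) (hFSY : S_FSY) (hSYM : S_SYM) (hUPB : S_UPB) (hSCL : S_SCL)
    (hBAD : S_BAD) (hCNT : S_CNT) (hWPI : S_WPI) (g : ℕ) (hg : 1 ≤ g) :
    ∃ c C : ℝ, 0 < c ∧ 0 < C ∧ ∀ q : ℕ, 1 ≤ q →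
      {P : ℤ[X] | IsWeil g q P}.Finite ∧
      c * (q : ℝ) ^ ((g : ℝ) * (g + 1) / 4) ≤ ({P : ℤ[X] | IsWeil g q P}.ncard : ℝ) ∧
      ∃ Bad : Finset ℤ[X], (Bad.card : ℝ) ≤ C * (q : ℝ) ^ ((g : ℝ) * (g + 1) / 4 - 1 / 2) ∧
        ∀ (a : Fin g → ℤ) (x : Fin g → ℝ), (∀ i, x i ^ 2 ≤ 4 * q) → RootsOf (fun j => (a j : ℝ)) x →
          wp q a ∉ Bad → Good (fun i => x i / Real.sqrt q) := by
  classical
  obtain ⟨D, hD, hDe⟩ := hSYM g (ff g) (hFSY g) (hFNZ g)
  obtain ⟨C, hC, hCB⟩ := hBAD g D hg hD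
  obtain ⟨c, hc, hcB⟩ := hCNT g
  refine ⟨c, C, hc, hC, fun q hq => ?_⟩
  have hf := fin hUPB hSCL g q hq
  refine ⟨hf, ?_, ?_⟩
  · obtain ⟨B, hB1, hB2⟩ := hcB q hq
    refine hB1.trans ?_
    have h1 : B.card = (B.image (fun a : Fin g → ℤ => wp q a)).card :=
      (Finset.card_image_of_injective B (hWPI g q)).symm
    rw [h1, ← Set.ncard_coe_finset]
    have h2 : ((B.image (fun a : Fin g → ℤ => wp q a) : Finset ℤ[X]) : Set ℤ[X]) ⊆
        {P : ℤ[X] | IsWeil g q P} := by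
      intro P hP
      rw [Finset.mem_coe, Finset.mem_image] at hP
      obtain ⟨a, ha, rfl⟩ := hP
      exact ⟨a, hB2 a ha, rfl⟩
    exact_mod_cast Set.ncard_le_ncard h2 hf
  · obtain ⟨B, hB1, hB2⟩ := hCB q hq
    refine ⟨B.image (fun a : Fin g → ℤ => wp q a), ?_, ?_⟩
    · refine le_trans ?_ hB1
      exact_mod_cast Finset.card_image_le
    · intro a x hx hr hP
      apply hFGD
      rw [← hDe _ _ (scaled hSCL hq hr)]
      intro h0
      exact hP (Finset.mem_image_of_mem _ (hB2 a x hx hr h0))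

/-- the isolated pair -/
theorem isolated (hREL : S_REL) (hDIS : S_DIS) (hEIG : S_EIG) (g q : ℕ) (hg : 1 ≤ g) (hq : 1 ≤ q)
    (x : Fin g → ℝ) (hx : Good (fun i => x i / Real.sqrt q)) (V : Type) [AddCommGroup V] [Module ℂ V]
    [FiniteDimensional ℂ V] (t : Module.End ℂ V)
    (ht : t.charpoly = ∏ i, (X ^ 2 - C (x i : ℂ) * X + C (q : ℂ))) :
    ∃ (n : ℕ) (w : Module.Basis (Fin n) ℂ V) (α : Fin n → ℂˣ) (i₀ i₁ : Fin n), i₀ ≠ i₁ ∧
      (∀ i, t (w i) = (α i : ℂ) • w i) ∧ ∀ h : Fin n → ℤ,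
        (∀ i, h i = if i = i₀ then 1 else if i = i₁ then -1 else 0) →
        ∀ i j k l, α i * α j = α k * α l → h i + h j = h k + h l := by
  have hs : (0 : ℝ) < Real.sqrt q := Real.sqrt_pos.2 (by exact_mod_cast hq)
  have hsC : ((Real.sqrt q : ℝ) : ℂ) ≠ 0 := by exact_mod_cast hs.ne'
  obtain ⟨β, w, h1, h2, h3⟩ := hEIG g q x V t hq ht (fun β h1 h2 => hDIS g _ hx β h1 h2)
  have hβ : ∀ u, β u ≠ 0 := by
    rintro ⟨i, b⟩ h0
    have h4 := h1 i
    cases b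
    · rw [h0, mul_zero] at h4
      exact zero_ne_one h4
    · rw [h0, zero_mul] at h4
      exact zero_ne_one h4
  let e : Fin g × Bool ≃ Fin (Fintype.card (Fin g × Bool)) := Fintype.equivFin _
  refine ⟨_, w.reindex e, fun i => Units.mk0 ((Real.sqrt q : ℂ) * β (e.symm i))
    (mul_ne_zero hsC (hβ _)), e (⟨0, hg⟩, true), e (⟨0, hg⟩, false), ?_, ?_, ?_⟩
  · intro h
    have h4 := e.injective h
    rw [Prod.mk.injEq] at h4
    exact Bool.noConfusion h4.2
  · intro i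
    rw [Module.Basis.reindex_apply, h3, Units.val_mk0]
  · intro h hh i j k l hrel
    have h5 := congrArg Units.val hrel
    simp only [Units.val_mul, Units.val_mk0] at h5
    have h6 : β (e.symm i) * β (e.symm j) = β (e.symm k) * β (e.symm l) := by
      have h7 : ((Real.sqrt q : ℝ) : ℂ) * ((Real.sqrt q : ℝ) : ℂ) * (β (e.symm i) * β (e.symm j)) =
          ((Real.sqrt q : ℝ) : ℂ) * ((Real.sqrt q : ℝ) : ℂ) * (β (e.symm k) * β (e.symm l)) := by
        linear_combination h5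
      exact mul_left_cancel₀ (mul_ne_zero hsC hsC) h7
    have h8 := hREL g _ hx β h1 h2 ⟨0, hg⟩ (fun u => h (e u)) (fun u => ?_) _ _ _ _ h6
    · simpa only [Equiv.apply_symm_apply] using h8
    · rw [hh]
      simp only [e.injective.eq_iff]

end Asm

end Pool.Agent.H18W
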